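import Pool.Agent.L5helper4.VR.V1

set_option autoImplicit false

/-!
# Mean values of Weyl sums modulo a large prime: all moments
-/

open Finset

namespace Pool.Agent.L5helper4.VR

open Pool.Agent.helper132_poly Pool.Agent.helper132_quad Pool.Agent.helper132_dc

lemma ch_neg {k Q : ℕ} [NeZero Q] (a b : Fin k → ZMod Q) : ch a (-b) = (starRingEnd ℂ) (ch a b) := by
  unfold ch
  rw [← AddChar.map_neg_eq_conj]
  congr 1
  rw [← Finset.sum_neg_distrib]
  apply Finset.sum_congr rfl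
  intro j _
  rw [Pi.neg_apply, mul_neg]

/-- the unweighted sum -/
noncomputable def F (k Q n : ℕ) [NeZero Q] (a : Fin k → ZMod Q) : ℂ := G k Q n (fun _ => 1) a

lemma F_eq (k Q n : ℕ) [NeZero Q] (a : Fin k → ZMod Q) : F k Q n a = ∑ z ∈ range n, ch a (mo k Q z) := by
  unfold F G
  simp

lemma F_norm (k Q n : ℕ) [NeZero Q] (a : Fin k → ZMod Q) : ‖F k Q n a‖ ≤ n := by
  rw [F_eq]
  refine (norm_sum_le _ _).trans ?_
  simp only [ch_norm]
  simp

lemma F_pow (k Q n t : ℕ) [NeZero Q] (a : Fin k → ZMod Q) :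
    F k Q n a ^ t = ∑ x ∈ Fintype.piFinset (fun _ : Fin t => range n), ch a (∑ i, mo k Q (x i)) := by
  rw [F_eq]
  have h := Finset.prod_univ_sum (fun _ : Fin t => range n) (fun _ z => ch a (mo k Q z))
  rw [Finset.prod_const, Finset.card_univ, Fintype.card_fin] at h
  rw [h]
  apply Finset.sum_congr rfl
  intro x _
  rw [ch_sum]

lemma F_sq (k Q n t : ℕ) [NeZero Q] (a : Fin k → ZMod Q) :
    ((‖F k Q n a‖ ^ (2 * t) : ℝ) : ℂ) =
      ∑ w ∈ Fintype.piFinset (fun _ : Fin t => range n) ×ˢ Fintype.piFinset (fun _ : Fin t => range n),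
        ch a (∑ i, mo k Q (w.1 i) - ∑ i, mo k Q (w.2 i)) := by
  have h1 : ((‖F k Q n a‖ ^ (2 * t) : ℝ) : ℂ) = F k Q n a ^ t * (starRingEnd ℂ) (F k Q n a ^ t) := by
    rw [Complex.mul_conj', norm_pow]
    push_cast
    rw [← pow_mul, mul_comm t 2]
  rw [h1, F_pow, map_sum, Finset.sum_mul_sum, Finset.sum_product]
  apply Finset.sum_congr rfl
  intro x _
  apply Finset.sum_congr rfl
  intro y _
  rw [sub_eq_add_neg, ch_add, ch_neg]

/-- the even moments -/
lemma Av_even (k Q n t : ℕ) [NeZero Q] (hQ : Q.Prime) (hn : 1 ≤ n) (hQn : t * n ^ k < Q) :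
    Av k Q n (fun _ => 1) (2 * t) ≤ Jm k t n := by
  classical
  have hQ0 : (0 : ℝ) < (Q : ℝ) ^ k := by
    have : (0 : ℝ) < Q := by exact_mod_cast hQ.pos
    positivity
  unfold Av
  rw [div_le_iff₀ hQ0]
  have h1 : ((∑ a : Fin k → ZMod Q, ‖G k Q n (fun _ => 1) a‖ ^ (2 * t) : ℝ) : ℂ) =
      (((((Fintype.piFinset (fun _ : Fin t => range n) ×ˢ Fintype.piFinset (fun _ : Fin t => range n)).filter
        (fun w => ∑ i, mo k Q (w.1 i) - ∑ i, mo k Q (w.2 i) = 0)).card : ℝ) * (Q : ℝ) ^ k : ℝ) : ℂ) := by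
    push_cast
    have h2 : ∀ a : Fin k → ZMod Q, ((‖G k Q n (fun _ => 1) a‖ : ℂ)) ^ (2 * t) = _ := fun a => by
      have := F_sq k Q n t a
      push_cast at this
      exact this
    rw [Finset.sum_congr rfl (fun a _ => h2 a), Finset.sum_comm]
    rw [Finset.card_filter]
    push_cast
    rw [Finset.sum_mul]
    apply Finset.sum_congr rfl
    intro w _
    rw [orth]
    split_ifs <;> simp
  have h3 := Complex.ofReal_injective h1
  rw [h3]
  apply mul_le_mul_of_nonneg_right _ hQ0.le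
  have h4 : ((Fintype.piFinset (fun _ : Fin t => range n) ×ˢ Fintype.piFinset (fun _ : Fin t => range n)).filter
        (fun w => ∑ i, mo k Q (w.1 i) - ∑ i, mo k Q (w.2 i) = 0)).card ≤ Jm k t n := by
    unfold Jm
    apply Finset.card_le_card_of_injOn
      (fun w : (Fin t → ℕ) × (Fin t → ℕ) => ((fun i => (w.1 i : ℤ)), (fun i => (w.2 i : ℤ))))
    · intro w hw
      rw [mem_coe, mem_filter, mem_product, Fintype.mem_piFinset, Fintype.mem_piFinset] at hw
      obtain ⟨⟨hw1, hw2⟩, hw3⟩ := hw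
      rw [mem_coe, mem_filter, mem_product, mem_bx, mem_bx]
      dsimp only
      refine ⟨⟨fun i => ⟨by positivity, ?_⟩, fun i => ⟨by positivity, ?_⟩⟩, ?_⟩
      · have := mem_range.1 (hw1 i)
        exact_mod_cast this
      · have := mem_range.1 (hw2 i)
        exact_mod_cast this
      · funext j
        rw [psm_apply, psm_apply]
        have h5 := congrFun (sub_eq_zero.1 hw3) j
        rw [Finset.sum_apply, Finset.sum_apply] at h5
        unfold mo at h5
        have hb : ∀ u : Fin t → ℕ, (∀ i, u i ∈ range n) → ∑ i, u i ^ (j.val + 1) < Q := by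
          intro u hu
          refine lt_of_le_of_lt ?_ hQn
          calc ∑ i, u i ^ (j.val + 1) ≤ ∑ _i : Fin t, n ^ k := by
                apply Finset.sum_le_sum
                intro i _
                have h6 := mem_range.1 (hu i)
                calc u i ^ (j.val + 1) ≤ n ^ (j.val + 1) := Nat.pow_le_pow_left h6.le _
                  _ ≤ n ^ k := Nat.pow_le_pow_right hn j.2
            _ = t * n ^ k := by simp
        have h7 : ((∑ i, w.1 i ^ (j.val + 1) : ℕ) : ZMod Q) = ((∑ i, w.2 i ^ (j.val + 1) : ℕ) : ZMod Q) := by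
          push_cast
          exact h5
        have h8 := Nat.ModEq.eq_of_lt_of_lt ((ZMod.natCast_eq_natCast_iff _ _ _).1 h7) (hb _ hw1) (hb _ hw2)
        exact_mod_cast h8
    · intro w _ w' _ h
      rw [Prod.mk.injEq] at h
      apply Prod.ext
      · funext i
        exact_mod_cast congrFun h.1 i
      · funext i
        exact_mod_cast congrFun h.2 i
  exact_mod_cast h4

lemma sk_real (k : ℕ) : (sk k : ℝ) = (k : ℝ) * (k + 1) / 2 := by
  unfold sk
  rw [Nat.cast_div (even_iff_two_dvd.1 (Nat.even_mul_succ_self k)) (by norm_num)]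
  push_cast
  ring

/-- the exponent -/
noncomputable def Bx (k m : ℕ) : ℝ := max ((m : ℝ) / 2) ((m : ℝ) - sk k)

/-- all moments -/
theorem Av_bound (k : ℕ) (hk : 1 ≤ k) (η : ℝ) (hη : 0 < η) : ∃ C : ℝ, 1 ≤ C ∧ ∀ (Q : ℕ) [NeZero Q], Q.Prime →
    ∀ n : ℕ, 1 ≤ n → sk k * n ^ k < Q → ∀ m : ℕ,
      Av k Q n (fun _ => 1) m ≤ C * (n : ℝ) ^ (η + Bx k m) := by
  obtain ⟨C, hC, hJ⟩ := vmvt k hk η hη
  refine ⟨1 + C, by linarith, fun Q _ hQ n hn hQn m => ?_⟩
  have hQ0 : (0 : ℝ) < (Q : ℝ) ^ k := by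
    have : (0 : ℝ) < Q := by exact_mod_cast hQ.pos
    positivity
  have hn1 : (1 : ℝ) ≤ n := by exact_mod_cast hn
  have hn0 : (0 : ℝ) < n := by linarith
  have hJn := hJ n hn
  rw [← sk_real] at hJn
  have hA := (Av_even k Q n (sk k) hQ hn hQn).trans hJn
  have e1 : 2 * (sk k : ℝ) - sk k + η = sk k + η := by ring
  rw [e1] at hA
  have hcard : (∑ _a : Fin k → ZMod Q, (1 : ℝ)) = (Q : ℝ) ^ k := by
    rw [Finset.sum_const, Finset.card_univ, Fintype.card_fun, ZMod.card, Fintype.card_fin]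
    simp
  rcases le_total m (2 * sk k) with hm | hm
  · have h1 : ∀ a : Fin k → ZMod Q, ‖G k Q n (fun _ => 1) a‖ ^ m ≤
        (n : ℝ) ^ ((m : ℝ) / 2) * (1 + ‖G k Q n (fun _ => 1) a‖ ^ (2 * sk k) * (n : ℝ) ^ (-(sk k : ℝ))) := by
      intro a
      obtain ⟨y, hy⟩ : ∃ y, y = ‖G k Q n (fun _ => 1) a‖ := ⟨_, rfl⟩
      have hy0 : 0 ≤ y := by rw [hy]; positivity
      rw [← hy]
      obtain ⟨r, hr⟩ : ∃ r : ℝ, r = Real.sqrt n := ⟨_, rfl⟩
      have hr0 : 0 < r := by rw [hr]; exact Real.sqrt_pos.2 hn0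
      have hrn : ∀ j : ℕ, (n : ℝ) ^ ((j : ℝ) / 2) = r ^ j := by
        intro j
        rw [hr, Real.sqrt_eq_rpow, ← Real.rpow_natCast, ← Real.rpow_mul hn0.le]
        congr 1
        ring
      have hw : (y / r) ^ m ≤ 1 + (y / r) ^ (2 * sk k) := by
        rcases le_total (y / r) 1 with h2 | h2
        · have h3 : (y / r) ^ m ≤ 1 := pow_le_one₀ (by positivity) h2
          have h4 : 0 ≤ (y / r) ^ (2 * sk k) := by positivity
          linarith
        · have h3 := pow_le_pow_right₀ h2 hm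
          linarith
      have h5 : (n : ℝ) ^ (-(sk k : ℝ)) = 1 / r ^ (2 * sk k) := by
        rw [Real.rpow_neg hn0.le, ← hrn (2 * sk k)]
        push_cast
        rw [mul_div_cancel_left₀ _ (two_ne_zero), one_div]
      rw [h5, hrn m]
      calc y ^ m = r ^ m * (y / r) ^ m := by rw [← mul_pow, mul_div_cancel₀ _ hr0.ne']
        _ ≤ r ^ m * (1 + (y / r) ^ (2 * sk k)) := mul_le_mul_of_nonneg_left hw (by positivity)
        _ = _ := by rw [div_pow]; ring
    have h2 : Av k Q n (fun _ => 1) m ≤ (n : ℝ) ^ ((m : ℝ) / 2) *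
        (1 + Av k Q n (fun _ => 1) (2 * sk k) * (n : ℝ) ^ (-(sk k : ℝ))) := by
      unfold Av
      rw [div_le_iff₀ hQ0]
      calc ∑ a : Fin k → ZMod Q, ‖G k Q n (fun _ => 1) a‖ ^ m ≤ ∑ a : Fin k → ZMod Q,
            (n : ℝ) ^ ((m : ℝ) / 2) * (1 + ‖G k Q n (fun _ => 1) a‖ ^ (2 * sk k) * (n : ℝ) ^ (-(sk k : ℝ))) :=
            Finset.sum_le_sum fun a _ => h1 a
        _ = _ := by
          rw [← Finset.mul_sum, Finset.sum_add_distrib, hcard, ← Finset.sum_mul]
          field_simp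
    refine h2.trans ?_
    have h3 : Av k Q n (fun _ => 1) (2 * sk k) * (n : ℝ) ^ (-(sk k : ℝ)) ≤ C * (n : ℝ) ^ η := by
      calc Av k Q n (fun _ => 1) (2 * sk k) * (n : ℝ) ^ (-(sk k : ℝ)) ≤
            C * (n : ℝ) ^ ((sk k : ℝ) + η) * (n : ℝ) ^ (-(sk k : ℝ)) :=
            mul_le_mul_of_nonneg_right hA (by positivity)
        _ = C * (n : ℝ) ^ η := by
          rw [mul_assoc, ← Real.rpow_add hn0]
          congr 2
          ring
    have h4 : (1 : ℝ) ≤ (n : ℝ) ^ η := Real.one_le_rpow hn1 hη.le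
    calc (n : ℝ) ^ ((m : ℝ) / 2) * (1 + Av k Q n (fun _ => 1) (2 * sk k) * (n : ℝ) ^ (-(sk k : ℝ))) ≤
          (n : ℝ) ^ ((m : ℝ) / 2) * ((1 + C) * (n : ℝ) ^ η) := by
          apply mul_le_mul_of_nonneg_left _ (by positivity)
          linarith
      _ = (1 + C) * (n : ℝ) ^ (η + (m : ℝ) / 2) := by
          rw [Real.rpow_add hn0]
          ring
      _ ≤ (1 + C) * (n : ℝ) ^ (η + Bx k m) := by
          apply mul_le_mul_of_nonneg_left _ (by linarith)
          apply Real.rpow_le_rpow_of_exponent_le hn1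
          unfold Bx
          have := le_max_left ((m : ℝ) / 2) ((m : ℝ) - sk k)
          linarith
  · have h1 : Av k Q n (fun _ => 1) m ≤ (n : ℝ) ^ (m - 2 * sk k) * Av k Q n (fun _ => 1) (2 * sk k) := by
      unfold Av
      rw [div_le_iff₀ hQ0]
      calc ∑ a : Fin k → ZMod Q, ‖G k Q n (fun _ => 1) a‖ ^ m ≤ ∑ a : Fin k → ZMod Q,
            (n : ℝ) ^ (m - 2 * sk k) * ‖G k Q n (fun _ => 1) a‖ ^ (2 * sk k) := by
            apply Finset.sum_le_sum
            intro a _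
            have h2 : ‖G k Q n (fun _ => 1) a‖ ^ m = ‖G k Q n (fun _ => 1) a‖ ^ (m - 2 * sk k) *
                ‖G k Q n (fun _ => 1) a‖ ^ (2 * sk k) := by
              rw [← pow_add]
              congr 1
              omega
            rw [h2]
            exact mul_le_mul_of_nonneg_right (pow_le_pow_left₀ (norm_nonneg _) (F_norm k Q n a) _) (by positivity)
        _ = _ := by
          rw [← Finset.mul_sum]
          field_simp
    refine h1.trans ?_
    calc (n : ℝ) ^ (m - 2 * sk k) * Av k Q n (fun _ => 1) (2 * sk k) ≤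
          (n : ℝ) ^ (m - 2 * sk k) * (C * (n : ℝ) ^ ((sk k : ℝ) + η)) :=
          mul_le_mul_of_nonneg_left hA (by positivity)
      _ = C * (n : ℝ) ^ (η + ((m : ℝ) - sk k)) := by
          rw [← Real.rpow_natCast, mul_left_comm, ← Real.rpow_add hn0, Nat.cast_sub hm]
          congr 2
          push_cast
          ring
      _ ≤ (1 + C) * (n : ℝ) ^ (η + Bx k m) := by
          apply mul_le_mul (by linarith) _ (by positivity) (by linarith)
          apply Real.rpow_le_rpow_of_exponent_le hn1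
          unfold Bx
          have := le_max_right ((m : ℝ) / 2) ((m : ℝ) - sk k)
          linarith

/-- the weights -/
noncomputable def W (a : ℝ) (L z : ℕ) : ℝ := ∑ j ∈ range (L + 1), if z < 2 ^ j then (2 : ℝ) ^ (-a * j) else 0

lemma W_nonneg (a : ℝ) (L z : ℕ) : 0 ≤ W a L z := by
  unfold W
  apply Finset.sum_nonneg
  intro j _
  split_ifs <;> positivity

lemma W_low (a : ℝ) (ha : 0 < a) (ha1 : a < 1) (L z : ℕ) (hz : 1 ≤ z) (hzL : z < 2 ^ L) :
    (z : ℝ) ^ (-a) ≤ 2 * W a L z := by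
  obtain ⟨i, hi⟩ : ∃ i, i = Nat.log 2 z := ⟨_, rfl⟩
  have h1 : 2 ^ i ≤ z := by rw [hi]; exact Nat.pow_log_le_self 2 (by omega)
  have h2 : z < 2 ^ (i + 1) := by rw [hi]; exact Nat.lt_pow_succ_log_self (by norm_num) _
  have h3 : i + 1 ≤ L := by
    by_contra h
    push Not at h
    have : 2 ^ L ≤ 2 ^ i := Nat.pow_le_pow_right (by norm_num) (by omega)
    omega
  have h4 : (2 : ℝ) ^ (-a * ((i + 1 : ℕ) : ℝ)) ≤ W a L z := by
    unfold W
    have h5 := Finset.single_le_sum (f := fun j : ℕ => if z < 2 ^ j then (2 : ℝ) ^ (-a * (j : ℝ)) else 0)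
      (s := range (L + 1)) (fun j _ => by split_ifs <;> positivity) (mem_range.2 (by omega : i + 1 < L + 1))
    rw [if_pos h2] at h5
    exact h5
  have hzr : (2 : ℝ) ^ (i : ℝ) ≤ z := by
    rw [Real.rpow_natCast]
    exact_mod_cast h1
  calc (z : ℝ) ^ (-a) ≤ ((2 : ℝ) ^ (i : ℝ)) ^ (-a) :=
        Real.rpow_le_rpow_of_nonpos (by positivity) hzr (by linarith)
    _ = (2 : ℝ) ^ a * (2 : ℝ) ^ (-a * ((i + 1 : ℕ) : ℝ)) := by
        rw [← Real.rpow_mul (by norm_num), ← Real.rpow_add (by norm_num)]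
        congr 1
        push_cast
        ring
    _ ≤ 2 * (2 : ℝ) ^ (-a * ((i + 1 : ℕ) : ℝ)) := by
        apply mul_le_mul_of_nonneg_right _ (by positivity)
        calc (2 : ℝ) ^ a ≤ 2 ^ (1 : ℝ) := Real.rpow_le_rpow_of_exponent_le (by norm_num) ha1.le
          _ = 2 := Real.rpow_one _
    _ ≤ 2 * W a L z := mul_le_mul_of_nonneg_left h4 (by norm_num)

/-- weighted moments -/
theorem AvW (k : ℕ) (hk : 1 ≤ k) (η : ℝ) (hη : 0 < η) (a : ℝ) : ∃ C : ℝ, 1 ≤ C ∧
    ∀ (Q : ℕ) [NeZero Q], Q.Prime → ∀ L : ℕ, sk k * (2 ^ L) ^ k < Q → ∀ m : ℕ,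
      Av k Q (2 ^ L) (W a L) m ≤ C * ((L : ℝ) + 1) ^ (m + 1) * (2 : ℝ) ^ (L * (η + max 0 (Bx k m - a * m))) := by
  obtain ⟨C, hC, hA⟩ := Av_bound k hk η hη
  refine ⟨C, hC, fun Q _ hQ L hQL m => ?_⟩
  have hQ0 : (0 : ℝ) < (Q : ℝ) ^ k := by
    have : (0 : ℝ) < Q := by exact_mod_cast hQ.pos
    positivity
  have hG : ∀ b : Fin k → ZMod Q, G k Q (2 ^ L) (W a L) b =
      ∑ j ∈ range (L + 1), (((2 : ℝ) ^ (-a * (j : ℝ)) : ℝ) : ℂ) * G k Q (2 ^ j) (fun _ => 1) b := by
    intro b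
    unfold G W
    simp only [Complex.ofReal_sum, Finset.sum_mul, Finset.mul_sum]
    rw [Finset.sum_comm]
    apply Finset.sum_congr rfl
    intro j hj
    have hjL : 2 ^ j ≤ 2 ^ L := Nat.pow_le_pow_right (by norm_num) (by have := mem_range.1 hj; omega)
    have h1 : range (2 ^ j) = (range (2 ^ L)).filter (fun z => z < 2 ^ j) := by
      ext z
      rw [mem_filter, mem_range, mem_range]
      omega
    rw [h1, Finset.sum_filter]
    apply Finset.sum_congr rfl
    intro z _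
    split_ifs
    · push_cast
      ring
    · simp
  have hpt : ∀ b : Fin k → ZMod Q, ‖G k Q (2 ^ L) (W a L) b‖ ^ m ≤ ((L : ℝ) + 1) ^ m *
      ∑ j ∈ range (L + 1), (2 : ℝ) ^ (-a * m * j) * ‖G k Q (2 ^ j) (fun _ => 1) b‖ ^ m := by
    intro b
    obtain ⟨y, hy⟩ : ∃ y : ℕ → ℝ, y = fun j : ℕ => (2 : ℝ) ^ (-a * (j : ℝ)) * ‖G k Q (2 ^ j) (fun _ => 1) b‖ := ⟨_, rfl⟩
    have hy0 : ∀ j, 0 ≤ y j := fun j => by rw [hy]; positivity
    have h1 : ‖G k Q (2 ^ L) (W a L) b‖ ≤ ∑ j ∈ range (L + 1), y j := by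
      rw [hG b]
      refine (norm_sum_le _ _).trans (le_of_eq ?_)
      apply Finset.sum_congr rfl
      intro j _
      rw [norm_mul, Complex.norm_real, Real.norm_of_nonneg (by positivity), hy]
    obtain ⟨j0, hj0, hmax⟩ := Finset.exists_max_image (range (L + 1)) y ⟨0, mem_range.2 (by omega)⟩
    have h2 : ∑ j ∈ range (L + 1), y j ≤ ((L : ℝ) + 1) * y j0 := by
      calc ∑ j ∈ range (L + 1), y j ≤ ∑ _j ∈ range (L + 1), y j0 := Finset.sum_le_sum hmax
        _ = _ := by rw [Finset.sum_const, card_range, nsmul_eq_mul]; push_cast; ring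
    have h3 : y j0 ^ m ≤ ∑ j ∈ range (L + 1), y j ^ m :=
      Finset.single_le_sum (f := fun j : ℕ => y j ^ m) (fun j _ => pow_nonneg (hy0 j) m) hj0
    calc ‖G k Q (2 ^ L) (W a L) b‖ ^ m ≤ (((L : ℝ) + 1) * y j0) ^ m :=
          pow_le_pow_left₀ (norm_nonneg _) (h1.trans h2) m
      _ = ((L : ℝ) + 1) ^ m * y j0 ^ m := mul_pow _ _ _
      _ ≤ ((L : ℝ) + 1) ^ m * ∑ j ∈ range (L + 1), y j ^ m := mul_le_mul_of_nonneg_left h3 (by positivity)
      _ = _ := by
          congr 1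
          apply Finset.sum_congr rfl
          intro j _
          rw [hy]
          dsimp only
          rw [mul_pow, ← Real.rpow_natCast ((2 : ℝ) ^ (-a * (j : ℝ))), ← Real.rpow_mul (by norm_num)]
          congr 2
          ring
  have h1 : Av k Q (2 ^ L) (W a L) m ≤ ((L : ℝ) + 1) ^ m *
      ∑ j ∈ range (L + 1), (2 : ℝ) ^ (-a * m * j) * Av k Q (2 ^ j) (fun _ => 1) m := by
    unfold Av
    rw [div_le_iff₀ hQ0]
    refine (Finset.sum_le_sum fun b _ => hpt b).trans (le_of_eq ?_)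
    rw [← Finset.mul_sum, Finset.sum_comm, mul_assoc]
    congr 1
    rw [Finset.sum_mul]
    apply Finset.sum_congr rfl
    intro j _
    rw [← Finset.mul_sum]
    field_simp
  refine h1.trans ?_
  obtain ⟨E, hE⟩ : ∃ E : ℝ, E = η + max 0 (Bx k m - a * m) := ⟨_, rfl⟩
  rw [← hE]
  have hE0 : 0 ≤ E := by
    rw [hE]
    have := le_max_left 0 (Bx k m - a * m)
    linarith
  have h2 : ∀ j ∈ range (L + 1), (2 : ℝ) ^ (-a * m * j) * Av k Q (2 ^ j) (fun _ => 1) m ≤
      C * (2 : ℝ) ^ (L * E) := by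
    intro j hj
    have hjL : j ≤ L := by have := mem_range.1 hj; omega
    have h3 := hA Q hQ (2 ^ j) Nat.one_le_two_pow (lt_of_le_of_lt (Nat.mul_le_mul_left _
      (Nat.pow_le_pow_left (Nat.pow_le_pow_right (by norm_num) hjL) k)) hQL) m
    have e1 : (((2 ^ j : ℕ) : ℝ)) ^ (η + Bx k m) = (2 : ℝ) ^ ((j : ℝ) * (η + Bx k m)) := by
      rw [Real.rpow_mul (by norm_num), Real.rpow_natCast]
      push_cast
      rfl
    rw [e1] at h3
    calc (2 : ℝ) ^ (-a * m * j) * Av k Q (2 ^ j) (fun _ => 1) m ≤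
          (2 : ℝ) ^ (-a * m * j) * (C * (2 : ℝ) ^ ((j : ℝ) * (η + Bx k m))) :=
          mul_le_mul_of_nonneg_left h3 (by positivity)
      _ = C * (2 : ℝ) ^ ((j : ℝ) * (η + (Bx k m - a * m))) := by
          rw [mul_left_comm, ← Real.rpow_add (by norm_num)]
          congr 2
          ring
      _ ≤ C * (2 : ℝ) ^ (L * E) := by
          apply mul_le_mul_of_nonneg_left _ (by linarith)
          apply Real.rpow_le_rpow_of_exponent_le (by norm_num)
          have h4 := le_max_right 0 (Bx k m - a * m)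
          have h5 : (j : ℝ) ≤ L := by exact_mod_cast hjL
          calc (j : ℝ) * (η + (Bx k m - a * m)) ≤ (j : ℝ) * E := by
                apply mul_le_mul_of_nonneg_left _ (by positivity)
                rw [hE]
                linarith
            _ ≤ L * E := mul_le_mul_of_nonneg_right h5 hE0
  calc ((L : ℝ) + 1) ^ m * ∑ j ∈ range (L + 1), (2 : ℝ) ^ (-a * m * j) * Av k Q (2 ^ j) (fun _ => 1) m ≤
        ((L : ℝ) + 1) ^ m * ∑ _j ∈ range (L + 1), C * (2 : ℝ) ^ (L * E) :=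
        mul_le_mul_of_nonneg_left (Finset.sum_le_sum h2) (by positivity)
    _ = C * ((L : ℝ) + 1) ^ (m + 1) * (2 : ℝ) ^ (L * E) := by
        rw [Finset.sum_const, card_range, nsmul_eq_mul, pow_succ]
        push_cast
        ring

end Pool.Agent.L5helper4.VR
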