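import Pool.Agent.L5helper4.VR.V2

set_option autoImplicit false

/-!
# Non-diagonal solutions, sorted by the pattern of equal variables
-/

open Finset

namespace Pool.Agent.L5helper4.VR

open Pool.Agent.helper132_dc (sk)

/-- the index set: `s` variables on each side -/
abbrev Ix (s : ℕ) := Fin s ⊕ Fin s

/-- the signs -/
def sg {s : ℕ} : Ix s → ℤ := Sum.elim (fun _ => 1) (fun _ => -1)

/-- the coefficient of a class -/
def cf {s : ℕ} (r : Ix s → Ix s) (b : Ix s) : ℤ := ∑ i, if r i = b then sg i else 0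

/-- the non-diagonal solutions with variables in `[1, X)` -/
noncomputable def ND (s k X : ℕ) : Finset (Ix s → ℕ) :=
  open Classical in
  (Fintype.piFinset (fun _ : Ix s => Ico 1 X)).filter (fun v =>
    (∀ j : Fin k, ∑ i, sg i * (v i : ℤ) ^ (j.val + 1) = 0) ∧
    ¬ ∃ σ : Equiv.Perm (Fin s), ∀ i, v (Sum.inr i) = v (Sum.inl (σ i)))

/-- the representative of the class -/
noncomputable def rp {s : ℕ} [Nonempty (Ix s)] (v : Ix s → ℕ) (i : Ix s) : Ix s := Function.invFun v (v i)

lemma v_rp {s : ℕ} [Nonempty (Ix s)] (v : Ix s → ℕ) (i : Ix s) : v (rp v i) = v i :=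
  Function.invFun_eq ⟨i, rfl⟩

lemma rp_rp {s : ℕ} [Nonempty (Ix s)] (v : Ix s → ℕ) (i : Ix s) : rp v (rp v i) = rp v i := by
  show Function.invFun v (v (rp v i)) = Function.invFun v (v i)
  rw [v_rp v i]

lemma rp_inj {s : ℕ} [Nonempty (Ix s)] (v : Ix s → ℕ) {b b' : Ix s} (hb : rp v b = b) (hb' : rp v b' = b')
    (h : v b = v b') : b = b' := by
  rw [← hb, ← hb']
  show Function.invFun v (v b) = Function.invFun v (v b')
  rw [h]

/-- the classes with a nonzero coefficient -/
def Ms {s : ℕ} (r : Ix s → Ix s) : Finset (Ix s) := univ.filter (fun b => cf r b ≠ 0)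

/-- the classes with coefficient zero -/
def Zs {s : ℕ} (r : Ix s → Ix s) : Finset (Ix s) := univ.filter (fun b => r b = b ∧ cf r b = 0)

lemma sg_abs {s : ℕ} (i : Ix s) : |sg i| = 1 := by
  rcases i with i | i <;> simp [sg]

lemma cf_abs {s : ℕ} (r : Ix s → Ix s) (b : Ix s) : |cf r b| ≤ 2 * s := by
  unfold cf
  refine (Finset.abs_sum_le_sum_abs _ _).trans ?_
  calc ∑ i, |if r i = b then sg i else 0| ≤ ∑ _i : Ix s, (1 : ℤ) := by
        apply Finset.sum_le_sum
        intro i _
        split_ifs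
        · rw [sg_abs]
        · simp
    _ = 2 * s := by
        rw [Finset.sum_const, Finset.card_univ, Fintype.card_sum, Fintype.card_fin]
        simp
        ring

lemma cf_ne {s : ℕ} (r : Ix s → Ix s) (b : Ix s) (h : cf r b ≠ 0) : ∃ i, r i = b := by
  by_contra hcon
  push Not at hcon
  apply h
  unfold cf
  apply Finset.sum_eq_zero
  intro i _
  rw [if_neg (hcon i)]

/-- a class with coefficient zero has at least two elements -/
lemma two_le {s : ℕ} (r : Ix s → Ix s) (b : Ix s) (hb : r b = b) (h : cf r b = 0) :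
    2 ≤ (univ.filter (fun i => r i = b)).card := by
  by_contra hcon
  push Not at hcon
  have h1 : (univ.filter (fun i => r i = b)) = {b} := by
    apply Finset.eq_singleton_iff_unique_mem.2
    refine ⟨by rw [mem_filter]; exact ⟨mem_univ _, hb⟩, fun x hx => ?_⟩
    by_contra hxb
    have h2 : ({x, b} : Finset (Ix s)) ⊆ univ.filter (fun i => r i = b) := by
      intro y hy
      rw [mem_insert, mem_singleton] at hy
      rcases hy with rfl | rfl
      · exact hx
      · rw [mem_filter]; exact ⟨mem_univ _, hb⟩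
    have h3 := card_le_card h2
    rw [card_pair hxb] at h3
    omega
  unfold cf at h
  rw [← Finset.sum_filter, h1, Finset.sum_singleton] at h
  have h2 := sg_abs b
  rw [h, abs_zero] at h2
  omega

lemma card_le {s : ℕ} (r : Ix s → Ix s) : 2 * (Zs r).card + (Ms r).card ≤ 2 * s := by
  have h1 : (univ : Finset (Ix s)).card = ∑ b ∈ (univ : Finset (Ix s)), (univ.filter (fun i => r i = b)).card :=
    Finset.card_eq_sum_card_fiberwise (fun i _ => mem_univ _)
  rw [Finset.card_univ, Fintype.card_sum, Fintype.card_fin] at h1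
  have h2 : ∑ b ∈ (univ : Finset (Ix s)), ((if b ∈ Zs r then 2 else 0) + (if b ∈ Ms r then 1 else 0)) ≤
      ∑ b ∈ (univ : Finset (Ix s)), (univ.filter (fun i => r i = b)).card := by
    apply Finset.sum_le_sum
    intro b _
    by_cases hz : b ∈ Zs r
    · have hm : b ∉ Ms r := by
        unfold Ms Zs at *
        rw [mem_filter] at hz ⊢
        exact fun h => h.2 hz.2.2
      rw [if_pos hz, if_neg hm]
      unfold Zs at hz
      rw [mem_filter] at hz
      exact two_le r b hz.2.1 hz.2.2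
    · rw [if_neg hz]
      by_cases hm : b ∈ Ms r
      · rw [if_pos hm]
        unfold Ms at hm
        rw [mem_filter] at hm
        obtain ⟨i, hi⟩ := cf_ne r b hm.2
        have : 0 < (univ.filter (fun i => r i = b)).card := card_pos.2 ⟨i, by rw [mem_filter]; exact ⟨mem_univ _, hi⟩⟩
        omega
      · rw [if_neg hm]
        omega
  rw [Finset.sum_add_distrib, ← h1, ← Finset.sum_filter, ← Finset.sum_filter, Finset.sum_const, Finset.sum_const,
    smul_eq_mul, smul_eq_mul, Finset.filter_mem_eq_inter, Finset.filter_mem_eq_inter, Finset.univ_inter,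
    Finset.univ_inter] at h2
  omega

/-- if all coefficients vanish then the solution is diagonal -/
lemma diag_of {s : ℕ} [Nonempty (Ix s)] (v : Ix s → ℕ) (h : ∀ b, cf (rp v) b = 0) :
    ∃ σ : Equiv.Perm (Fin s), ∀ i, v (Sum.inr i) = v (Sum.inl (σ i)) := by
  classical
  have h1 : ∀ b : Ix s, Nonempty ({i : Fin s // rp v (Sum.inr i) = b} ≃ {i : Fin s // rp v (Sum.inl i) = b}) := by
    intro b
    apply Fintype.card_eq.1
    have h2 := h b
    unfold cf at h2
    rw [Fintype.sum_sum_type] at h2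
    simp only [sg, Sum.elim_inl, Sum.elim_inr] at h2
    rw [Fintype.card_subtype, Fintype.card_subtype, Finset.card_filter, Finset.card_filter]
    have h3 : ∑ i : Fin s, (if rp v (Sum.inr i) = b then (-1 : ℤ) else 0) =
        - ((∑ i : Fin s, if rp v (Sum.inr i) = b then 1 else 0 : ℕ) : ℤ) := by
      push_cast
      rw [← Finset.sum_neg_distrib]
      apply Finset.sum_congr rfl
      intro i _
      split_ifs <;> simp
    have h4 : ∑ i : Fin s, (if rp v (Sum.inl i) = b then (1 : ℤ) else 0) =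
        ((∑ i : Fin s, if rp v (Sum.inl i) = b then 1 else 0 : ℕ) : ℤ) := by
      push_cast
      rfl
    rw [h3, h4] at h2
    omega
  have e := fun b => Classical.choice (h1 b)
  refine ⟨Equiv.ofFiberEquiv (f := fun i => rp v (Sum.inr i)) (g := fun i => rp v (Sum.inl i)) e, fun i => ?_⟩
  have h2 := Equiv.ofFiberEquiv_map (f := fun i => rp v (Sum.inr i)) (g := fun i => rp v (Sum.inl i)) e i
  rw [← v_rp v (Sum.inr i), ← h2, v_rp v _]

/-- the system in terms of the classes -/
lemma sys_cf {s : ℕ} [Nonempty (Ix s)] (v : Ix s → ℕ) (j : ℕ) :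
    ∑ i, sg i * (v i : ℤ) ^ j = ∑ b : {b // b ∈ Ms (rp v)}, cf (rp v) b * (v b : ℤ) ^ j := by
  rw [Finset.sum_coe_sort (Ms (rp v)) (fun b => cf (rp v) b * (v b : ℤ) ^ j)]
  have h1 : ∑ b ∈ Ms (rp v), cf (rp v) b * (v b : ℤ) ^ j = ∑ b, cf (rp v) b * (v b : ℤ) ^ j := by
    unfold Ms
    rw [Finset.sum_filter]
    apply Finset.sum_congr rfl
    intro b _
    split_ifs with hb
    · rfl
    · push Not at hb
      rw [hb, zero_mul]
  rw [h1]
  unfold cf
  simp only [Finset.sum_mul]
  rw [Finset.sum_comm]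
  apply Finset.sum_congr rfl
  intro i _
  simp only [ite_mul, zero_mul]
  rw [Finset.sum_ite_eq, if_pos (mem_univ _), v_rp v i]

/-- the product over the values -/
lemma prod_image_eq {s : ℕ} [Nonempty (Ix s)] (v : Ix s → ℕ) (w : ℕ → ℝ) :
    ∏ z ∈ univ.image v, w z =
      (∏ b : {b // b ∈ Ms (rp v)}, w (v b)) * ∏ b : {b // b ∈ Zs (rp v)}, w (v b) := by
  rw [Finset.prod_coe_sort (Ms (rp v)) (fun b => w (v b)), Finset.prod_coe_sort (Zs (rp v)) (fun b => w (v b))]
  have hd : Disjoint (Ms (rp v)) (Zs (rp v)) := by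
    rw [Finset.disjoint_left]
    intro b hb hb'
    unfold Ms at hb
    unfold Zs at hb'
    rw [mem_filter] at hb hb'
    exact hb.2 hb'.2.2
  rw [← Finset.prod_union hd]
  have hrep : ∀ b, b ∈ Ms (rp v) ∪ Zs (rp v) ↔ rp v b = b := by
    intro b
    rw [mem_union]
    unfold Ms Zs
    rw [mem_filter, mem_filter]
    constructor
    · rintro (⟨_, h⟩ | ⟨_, h, _⟩)
      · obtain ⟨i, hi⟩ := cf_ne _ _ h
        rw [← hi, rp_rp]
      · exact h
    · intro h
      by_cases h0 : cf (rp v) b = 0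
      · exact Or.inr ⟨mem_univ _, h, h0⟩
      · exact Or.inl ⟨mem_univ _, h0⟩
  have h1 : univ.image v = (Ms (rp v) ∪ Zs (rp v)).image v := by
    ext z
    rw [mem_image, mem_image]
    constructor
    · rintro ⟨i, _, rfl⟩
      exact ⟨rp v i, (hrep _).2 (rp_rp v i), v_rp v i⟩
    · rintro ⟨b, _, rfl⟩
      exact ⟨b, mem_univ _, rfl⟩
  rw [h1, Finset.prod_image]
  intro b hb b' hb' h
  exact rp_inj v ((hrep b).1 hb) ((hrep b').1 hb') h

open Classical in
/-- the solutions for one pattern -/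
noncomputable def As (k X : ℕ) {s : ℕ} (r : Ix s → Ix s) : Finset ({b // b ∈ Ms r} → ℕ) :=
  (Fintype.piFinset (fun _ => range X)).filter
      (fun u => ∀ j : Fin k, ∑ b, cf r b.1 * (u b : ℤ) ^ (j.val + 1) = 0)

open Classical in
/-- the contribution of one pattern -/
theorem one_pattern {s : ℕ} [Nonempty (Ix s)] (k X : ℕ) (w : ℕ → ℝ) (hw : ∀ z, 0 ≤ w z) (r : Ix s → Ix s) :
    ∑ v ∈ (ND s k X).filter (fun v => rp v = r), ∏ z ∈ univ.image v, w z ≤
      (∑ z ∈ range X, w z) ^ (Zs r).card * ∑ u ∈ As k X r, ∏ b, w (u b) := by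
  have h1 : ∀ v ∈ (ND s k X).filter (fun v => rp v = r), ∏ z ∈ univ.image v, w z =
      (∏ b : {b // b ∈ Ms r}, w (v b)) * ∏ b : {b // b ∈ Zs r}, w (v b) := by
    intro v hv
    rw [mem_filter] at hv
    obtain ⟨_, rfl⟩ := hv
    exact prod_image_eq v w
  rw [Finset.sum_congr rfl h1]
  obtain ⟨f, hf⟩ : ∃ f : (Ix s → ℕ) → ({b // b ∈ Ms r} → ℕ) × ({b // b ∈ Zs r} → ℕ),
      f = fun v => (fun b => v b, fun b => v b) := ⟨_, rfl⟩
  obtain ⟨g, hg⟩ : ∃ g : ({b // b ∈ Ms r} → ℕ) × ({b // b ∈ Zs r} → ℕ) → ℝ,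
      g = fun q => (∏ b, w (q.1 b)) * ∏ b, w (q.2 b) := ⟨_, rfl⟩
  have hinj : Set.InjOn f ((ND s k X).filter (fun v => rp v = r)) := by
    intro v hv v' hv' h
    rw [mem_coe, mem_filter] at hv hv'
    have hvr := hv.2
    have hvr' := hv'.2
    rw [hf] at h
    simp only [Prod.mk.injEq] at h
    funext i
    have e1 : v i = v (r i) := by rw [← hvr, v_rp v i]
    have e2 : v' i = v' (r i) := by rw [← hvr', v_rp v' i]
    rw [e1, e2]
    have hri : r (r i) = r i := by rw [← hvr, rp_rp]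
    by_cases h0 : cf r (r i) = 0
    · exact congrFun h.2 ⟨r i, by unfold Zs; rw [mem_filter]; exact ⟨mem_univ _, hri, h0⟩⟩
    · exact congrFun h.1 ⟨r i, by unfold Ms; rw [mem_filter]; exact ⟨mem_univ _, h0⟩⟩
  have h2 : ∑ v ∈ (ND s k X).filter (fun v => rp v = r),
      (∏ b : {b // b ∈ Ms r}, w (v b)) * ∏ b : {b // b ∈ Zs r}, w (v b) =
      ∑ q ∈ ((ND s k X).filter (fun v => rp v = r)).image f, g q := by
    rw [Finset.sum_image hinj]
    apply Finset.sum_congr rfl
    intro v _
    rw [hg, hf]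
  rw [h2]
  have h3 : ∑ q ∈ ((ND s k X).filter (fun v => rp v = r)).image f, g q ≤
      ∑ q ∈ As k X r ×ˢ Fintype.piFinset (fun _ : {b // b ∈ Zs r} => range X), g q := by
    apply Finset.sum_le_sum_of_subset_of_nonneg
    · intro q hq
      rw [mem_image] at hq
      obtain ⟨v, hv, rfl⟩ := hq
      rw [mem_filter] at hv
      obtain ⟨hv, hvr⟩ := hv
      unfold ND at hv
      rw [mem_filter, Fintype.mem_piFinset] at hv
      obtain ⟨hv1, hv2, _⟩ := hv
      have hvX : ∀ i, v i ∈ range X := fun i => by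
        have := mem_Ico.1 (hv1 i)
        exact mem_range.2 this.2
      rw [mem_product, hf, Fintype.mem_piFinset]
      dsimp only
      refine ⟨?_, fun b => hvX _⟩
      unfold As
      rw [mem_filter, Fintype.mem_piFinset]
      refine ⟨fun b => hvX _, fun j => ?_⟩
      have h4 := hv2 j
      rw [sys_cf v] at h4
      subst hvr
      exact h4
    · intro q _ _
      rw [hg]
      exact mul_nonneg (Finset.prod_nonneg fun b _ => hw _) (Finset.prod_nonneg fun b _ => hw _)
  refine h3.trans (le_of_eq ?_)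
  rw [Finset.sum_product, hg]
  dsimp only
  simp only [← Finset.mul_sum]
  rw [← Finset.sum_mul, mul_comm]
  congr 1
  have h5 := Finset.prod_univ_sum (fun _ : {b // b ∈ Zs r} => range X) (fun _ z => w z)
  rw [← h5, Finset.prod_const, Finset.card_univ, Fintype.card_coe]

/-- the weighted number of non-diagonal solutions -/
theorem nd_sum {s : ℕ} [Nonempty (Ix s)] (k L : ℕ) (a : ℝ) (w : ℕ → ℝ) (hw : ∀ z, 0 ≤ w z) (K : ℝ)
    (hwK : ∀ z < 2 ^ L, w z ≤ K * W a L z) (hK : 0 ≤ K) (Q : ℕ) [NeZero Q] (hQ : Q.Prime) (hQs : 2 * s < Q) :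
    ∑ v ∈ ND s k (2 ^ L), ∏ z ∈ univ.image v, w z ≤
      ∑ r ∈ (univ : Finset (Ix s → Ix s)).filter (fun r => (Ms r).Nonempty),
        (∑ z ∈ range (2 ^ L), w z) ^ (Zs r).card *
          (K ^ (Ms r).card * Av k Q (2 ^ L) (W a L) (Ms r).card) := by
  classical
  have h1 : ∀ v ∈ ND s k (2 ^ L), rp v ∈ (univ : Finset (Ix s → Ix s)).filter (fun r => (Ms r).Nonempty) := by
    intro v hv
    rw [mem_filter]
    refine ⟨mem_univ _, ?_⟩
    by_contra hcon
    rw [Finset.not_nonempty_iff_eq_empty] at hcon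
    unfold ND at hv
    rw [mem_filter] at hv
    apply hv.2.2
    apply diag_of
    intro b
    by_contra hb
    have : b ∈ Ms (rp v) := by
      unfold Ms
      rw [mem_filter]
      exact ⟨mem_univ _, hb⟩
    rw [hcon] at this
    exact absurd this (Finset.notMem_empty _)
  rw [← Finset.sum_fiberwise_of_maps_to h1]
  apply Finset.sum_le_sum
  intro r hr
  rw [mem_filter] at hr
  obtain ⟨b0, hb0⟩ := hr.2
  refine (one_pattern k (2 ^ L) w hw r).trans ?_
  apply mul_le_mul_of_nonneg_left _ (pow_nonneg (Finset.sum_nonneg fun z _ => hw z) _)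
  have hne : Nonempty {b // b ∈ Ms r} := ⟨⟨b0, hb0⟩⟩
  have h2 : ∑ u ∈ As k (2 ^ L) r, ∏ b, w (u b) ≤ K ^ (Ms r).card * ∑ u ∈ As k (2 ^ L) r, ∏ b, W a L (u b) := by
    rw [Finset.mul_sum]
    apply Finset.sum_le_sum
    intro u hu
    unfold As at hu
    rw [mem_filter, Fintype.mem_piFinset] at hu
    calc ∏ b, w (u b) ≤ ∏ b : {b // b ∈ Ms r}, K * W a L (u b) :=
          Finset.prod_le_prod (fun b _ => hw _) fun b _ => hwK _ (mem_range.1 (hu.1 b))
      _ = K ^ (Ms r).card * ∏ b, W a L (u b) := by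
          rw [Finset.prod_mul_distrib, Finset.prod_const, Finset.card_univ, Fintype.card_coe]
  refine h2.trans (mul_le_mul_of_nonneg_left ?_ (by positivity))
  have h3 := count_le k Q (2 ^ L) hQ (W a L) (W_nonneg a L) (M := {b // b ∈ Ms r}) (fun b => cf r b.1) (by
    intro b
    refine ⟨(mem_filter.1 b.2).2, ?_⟩
    have h4 := cf_abs r b.1
    have h5 : ((2 * s : ℕ) : ℤ) < Q := by exact_mod_cast hQs
    push_cast at h5
    linarith)
  rw [Fintype.card_coe] at h3
  refine le_trans (le_of_eq ?_) h3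
  unfold As
  apply Finset.sum_congr _ (fun _ _ => rfl)
  congr 1

end Pool.Agent.L5helper4.VR
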