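import Pool.Agent.L5helper4.VR.V3

set_option autoImplicit false

/-!
# The weighted number of non-diagonal solutions for weights `≪ z ^ (-a)`
-/

open Finset

namespace Pool.Agent.L5helper4.VR

open Pool.Agent.helper132_dc (sk)

lemma poly_le (n : ℕ) (η : ℝ) (hη : 0 < η) : ∃ C : ℝ, 1 ≤ C ∧ ∀ L : ℕ, ((L : ℝ) + 1) ^ n ≤ C * (2 : ℝ) ^ (L * η) := by
  obtain ⟨e, he⟩ : ∃ e : ℝ, e = η / (n + 1) := ⟨_, rfl⟩
  have he0 : 0 < e := by rw [he]; positivity
  have hl : 0 < Real.log 2 := Real.log_pos (by norm_num)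
  obtain ⟨D, hD⟩ : ∃ D : ℝ, D = 1 + 1 / (e * Real.log 2) := ⟨_, rfl⟩
  have hD1 : 1 ≤ D := by
    rw [hD]
    have : 0 < 1 / (e * Real.log 2) := by positivity
    linarith
  refine ⟨D ^ (n + 1), one_le_pow₀ hD1, fun L => ?_⟩
  have h1 : 1 + L * e * Real.log 2 ≤ (2 : ℝ) ^ (L * e) := by
    rw [Real.rpow_def_of_pos (by norm_num)]
    have := Real.add_one_le_exp (Real.log 2 * (L * e))
    linarith
  have h2 : (L : ℝ) + 1 ≤ D * (2 : ℝ) ^ (L * e) := by
    have h3 : 0 ≤ L * e * Real.log 2 := by positivity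
    have h4 : D * (1 + L * e * Real.log 2) ≤ D * (2 : ℝ) ^ (L * e) :=
      mul_le_mul_of_nonneg_left h1 (by linarith)
    refine le_trans ?_ h4
    have h5 : 1 / (e * Real.log 2) * (L * e * Real.log 2) = L := by field_simp
    have h6 : 0 < 1 / (e * Real.log 2) := by positivity
    rw [hD]
    nlinarith
  have hL1 : (1 : ℝ) ≤ (L : ℝ) + 1 := by
    have : (0 : ℝ) ≤ L := by positivity
    linarith
  calc ((L : ℝ) + 1) ^ n ≤ ((L : ℝ) + 1) ^ (n + 1) := pow_le_pow_right₀ hL1 (by omega)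
    _ ≤ (D * (2 : ℝ) ^ (L * e)) ^ (n + 1) := pow_le_pow_left₀ (by positivity) h2 _
    _ = D ^ (n + 1) * (2 : ℝ) ^ (L * η) := by
        rw [mul_pow, ← Real.rpow_natCast ((2 : ℝ) ^ (L * e)), ← Real.rpow_mul (by norm_num), he]
        congr 2
        push_cast
        field_simp

lemma W_sum (a : ℝ) (ha1 : a < 1) (L : ℕ) :
    ∑ z ∈ range (2 ^ L), W a L z ≤ ((L : ℝ) + 1) * (2 : ℝ) ^ (L * (1 - a)) := by
  unfold W
  rw [Finset.sum_comm]
  calc ∑ j ∈ range (L + 1), ∑ z ∈ range (2 ^ L), (if z < 2 ^ j then (2 : ℝ) ^ (-a * (j : ℝ)) else 0) ≤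
        ∑ _j ∈ range (L + 1), (2 : ℝ) ^ (L * (1 - a)) := by
        apply Finset.sum_le_sum
        intro j hj
        have hjL : j ≤ L := by have := mem_range.1 hj; omega
        have hjL2 : 2 ^ j ≤ 2 ^ L := Nat.pow_le_pow_right (by norm_num) hjL
        rw [← Finset.sum_filter]
        have h1 : (range (2 ^ L)).filter (fun z => z < 2 ^ j) = range (2 ^ j) := by
          ext z
          rw [mem_filter, mem_range, mem_range]
          omega
        rw [h1, Finset.sum_const, card_range, nsmul_eq_mul]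
        have h2 : ((2 ^ j : ℕ) : ℝ) = (2 : ℝ) ^ (j : ℝ) := by
          rw [Real.rpow_natCast]
          push_cast
          rfl
        rw [h2, ← Real.rpow_add (by norm_num)]
        apply Real.rpow_le_rpow_of_exponent_le (by norm_num)
        have h3 : (j : ℝ) ≤ L := by exact_mod_cast hjL
        nlinarith
    _ = _ := by
        rw [Finset.sum_const, card_range, nsmul_eq_mul]
        push_cast
        rfl

/-- the saving -/
noncomputable def sv (s k : ℕ) (a : ℝ) : ℝ := min (min ((1 - a) / 2) (a / 2)) ((sk k : ℝ) - (1 - a) * s)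

lemma expo (s k ζ m : ℕ) (a : ℝ) (ha : 0 < a) (ha1 : a < 1) (hm : 1 ≤ m) (hζ : 2 * ζ + m ≤ 2 * s) :
    (1 - a) * ζ + max 0 (Bx k m - a * m) ≤ (1 - a) * s - sv s k a := by
  have h1 : sv s k a ≤ (1 - a) / 2 := (min_le_left _ _).trans (min_le_left _ _)
  have h2 : sv s k a ≤ a / 2 := (min_le_left _ _).trans (min_le_right _ _)
  have h3 : sv s k a ≤ (sk k : ℝ) - (1 - a) * s := min_le_right _ _
  have hm1 : (1 : ℝ) ≤ m := by exact_mod_cast hm
  have hz : 2 * (ζ : ℝ) + m ≤ 2 * s := by exact_mod_cast hζ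
  have hz0 : (0 : ℝ) ≤ ζ := by positivity
  have hb : 0 < 1 - a := by linarith
  rcases max_choice 0 (Bx k m - a * m) with h | h
  · rw [h]
    nlinarith
  · rw [h]
    unfold Bx
    rcases max_choice ((m : ℝ) / 2) ((m : ℝ) - sk k) with h4 | h4
    · rw [h4]
      nlinarith
    · rw [h4]
      nlinarith

theorem nd_bound (s k : ℕ) (hs : 1 ≤ s) (hk : 1 ≤ k) (a : ℝ) (ha : 0 < a) (ha1 : a < 1)
    (hsk : (1 - a) * s < sk k) (C0 : ℝ) (hC0 : 0 ≤ C0) :
    ∃ C : ℝ, 1 ≤ C ∧ ∀ (L : ℕ) (w : ℕ → ℝ), (∀ z, 0 ≤ w z) → w 0 = 0 →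
      (∀ z : ℕ, 1 ≤ z → z < 2 ^ L → w z ≤ C0 * (z : ℝ) ^ (-a)) →
      ∑ v ∈ ND s k (2 ^ L), ∏ z ∈ univ.image v, w z ≤ C * (2 : ℝ) ^ (L * ((1 - a) * s - sv s k a / 2)) := by
  have hsv : 0 < sv s k a := by
    unfold sv
    apply lt_min (lt_min (by linarith) (by linarith)) (by linarith)
  obtain ⟨η, hη⟩ : ∃ η : ℝ, η = sv s k a / 4 := ⟨_, rfl⟩
  have hη0 : 0 < η := by rw [hη]; positivity
  obtain ⟨C1, hC1, hAv⟩ := AvW k hk η hη0 a
  obtain ⟨C2, hC2, hpoly⟩ := poly_le (2 * s + 1) η hη0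
  obtain ⟨K, hK⟩ : ∃ K : ℝ, K = 2 * C0 + 1 := ⟨_, rfl⟩
  have hK1 : 1 ≤ K := by rw [hK]; linarith
  obtain ⟨R, hR⟩ : ∃ R : ℕ, R = ((univ : Finset (Ix s → Ix s)).filter (fun r => (Ms r).Nonempty)).card := ⟨_, rfl⟩
  refine ⟨((R : ℝ) + 1) * (K ^ (2 * s) * C1 * C2), ?_, fun L w hw hw0 hwC => ?_⟩
  · have h1 : (1 : ℝ) ≤ (R : ℝ) + 1 := by
      have : (0 : ℝ) ≤ R := by positivity
      linarith
    exact one_le_mul_of_one_le_of_one_le h1 (one_le_mul_of_one_le_of_one_le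
      (one_le_mul_of_one_le_of_one_le (one_le_pow₀ hK1) hC1) hC2)
  have hne : Nonempty (Ix s) := ⟨Sum.inl ⟨0, hs⟩⟩
  obtain ⟨Q, hQ1, hQ⟩ := Nat.exists_infinite_primes (sk k * (2 ^ L) ^ k + 2 * s + 1)
  have : NeZero Q := ⟨hQ.ne_zero⟩
  have hwK : ∀ z < 2 ^ L, w z ≤ K * W a L z := by
    intro z hz
    have h0 := W_nonneg a L z
    rcases Nat.eq_zero_or_pos z with rfl | hz1
    · rw [hw0]
      exact mul_nonneg (by linarith) h0
    · refine (hwC z hz1 hz).trans ?_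
      have h1 := W_low a ha ha1 L z hz1 hz
      rw [hK]
      nlinarith
  refine (nd_sum k L a w hw K hwK (by linarith) Q hQ (by omega)).trans ?_
  have hsumw : ∑ z ∈ range (2 ^ L), w z ≤ K * (((L : ℝ) + 1) * (2 : ℝ) ^ (L * (1 - a))) := by
    calc ∑ z ∈ range (2 ^ L), w z ≤ ∑ z ∈ range (2 ^ L), K * W a L z :=
          Finset.sum_le_sum fun z hz => hwK z (mem_range.1 hz)
      _ = K * ∑ z ∈ range (2 ^ L), W a L z := by rw [Finset.mul_sum]
      _ ≤ _ := mul_le_mul_of_nonneg_left (W_sum a ha1 L) (by linarith)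
  have hterm : ∀ r ∈ (univ : Finset (Ix s → Ix s)).filter (fun r => (Ms r).Nonempty),
      (∑ z ∈ range (2 ^ L), w z) ^ (Zs r).card * (K ^ (Ms r).card * Av k Q (2 ^ L) (W a L) (Ms r).card) ≤
      K ^ (2 * s) * C1 * C2 * (2 : ℝ) ^ (L * ((1 - a) * s - sv s k a / 2)) := by
    intro r hr
    rw [mem_filter] at hr
    have hm := card_pos.2 hr.2
    have hcl := card_le r
    obtain ⟨ζ, hζ⟩ : ∃ ζ, ζ = (Zs r).card := ⟨_, rfl⟩
    obtain ⟨m, hmm⟩ : ∃ m, m = (Ms r).card := ⟨_, rfl⟩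
    rw [← hζ, ← hmm] at hcl ⊢
    rw [← hmm] at hm
    have hAv1 := hAv Q hQ L (by omega) m
    have h1 : (∑ z ∈ range (2 ^ L), w z) ^ ζ ≤ (K * (((L : ℝ) + 1) * (2 : ℝ) ^ (L * (1 - a)))) ^ ζ :=
      pow_le_pow_left₀ (Finset.sum_nonneg fun z _ => hw z) hsumw ζ
    have hL1 : (1 : ℝ) ≤ (L : ℝ) + 1 := by
      have : (0 : ℝ) ≤ L := by positivity
      linarith
    have hE := expo s k ζ m a ha ha1 hm hcl
    calc (∑ z ∈ range (2 ^ L), w z) ^ ζ * (K ^ m * Av k Q (2 ^ L) (W a L) m) ≤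
          (K * (((L : ℝ) + 1) * (2 : ℝ) ^ (L * (1 - a)))) ^ ζ * (K ^ m * (C1 * ((L : ℝ) + 1) ^ (m + 1) *
            (2 : ℝ) ^ (L * (η + max 0 (Bx k m - a * m))))) := by
          apply mul_le_mul h1 (mul_le_mul_of_nonneg_left hAv1 (by positivity))
            (mul_nonneg (by positivity) (Av_nonneg _ _ _ _ _)) (by positivity)
      _ = K ^ (ζ + m) * C1 * ((L : ℝ) + 1) ^ (ζ + m + 1) *
            (2 : ℝ) ^ (L * ((1 - a) * ζ + (η + max 0 (Bx k m - a * m)))) := by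
          have e1 : (2 : ℝ) ^ (L * ((1 - a) * ζ + (η + max 0 (Bx k m - a * m)))) =
              ((2 : ℝ) ^ (L * (1 - a))) ^ ζ * (2 : ℝ) ^ (L * (η + max 0 (Bx k m - a * m))) := by
            rw [← Real.rpow_natCast ((2 : ℝ) ^ (L * (1 - a))), ← Real.rpow_mul (by norm_num),
              ← Real.rpow_add (by norm_num)]
            congr 1
            ring
          rw [e1, mul_pow, mul_pow, pow_add, pow_add, pow_add]
          ring
      _ ≤ K ^ (2 * s) * C1 * ((L : ℝ) + 1) ^ (2 * s + 1) * (2 : ℝ) ^ (L * ((1 - a) * s - sv s k a + η)) := by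
          have h2 : K ^ (ζ + m) ≤ K ^ (2 * s) := pow_le_pow_right₀ hK1 (by omega)
          have h3 : ((L : ℝ) + 1) ^ (ζ + m + 1) ≤ ((L : ℝ) + 1) ^ (2 * s + 1) := pow_le_pow_right₀ hL1 (by omega)
          have h4 : (2 : ℝ) ^ (L * ((1 - a) * ζ + (η + max 0 (Bx k m - a * m)))) ≤
              (2 : ℝ) ^ (L * ((1 - a) * s - sv s k a + η)) := by
            apply Real.rpow_le_rpow_of_exponent_le (by norm_num)
            apply mul_le_mul_of_nonneg_left _ (by positivity)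
            linarith
          gcongr
      _ ≤ K ^ (2 * s) * C1 * (C2 * (2 : ℝ) ^ (L * η)) * (2 : ℝ) ^ (L * ((1 - a) * s - sv s k a + η)) := by
          have h2 := hpoly L
          have h3 : (0 : ℝ) ≤ K ^ (2 * s) * C1 := by positivity
          gcongr
      _ = K ^ (2 * s) * C1 * C2 * (2 : ℝ) ^ (L * ((1 - a) * s - sv s k a / 2)) := by
          have e1 : (2 : ℝ) ^ (L * ((1 - a) * s - sv s k a / 2)) =
              (2 : ℝ) ^ (L * η) * (2 : ℝ) ^ (L * ((1 - a) * s - sv s k a + η)) := by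
            rw [← Real.rpow_add (by norm_num)]
            congr 1
            rw [hη]
            ring
          rw [e1]
          ring
  refine (Finset.sum_le_sum hterm).trans ?_
  rw [Finset.sum_const, nsmul_eq_mul, ← hR]
  have h5 : (0 : ℝ) ≤ K ^ (2 * s) * C1 * C2 * (2 : ℝ) ^ (L * ((1 - a) * s - sv s k a / 2)) := by positivity
  nlinarith

end Pool.Agent.L5helper4.VR
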