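import Pool.Agent.L5helper4.VR.V4
import Pool.Agent.Helper932_RM.Prob

set_option autoImplicit false

/-!
# Random sets: the number of the non-diagonal solutions and the number of elements, at the dyadic points
-/

open Finset MeasureTheory ProbabilityTheory Filter

namespace Pool.Agent.L5helper4.VR

open Pool.Agent.helper132_dc (sk)

variable {Ω : Type} [MeasurableSpace Ω] (μ : Measure Ω) [IsProbabilityMeasure μ] (E : ℕ → Set Ω)

open Classical in
/-- the number of members of `S` all of whose entries are chosen -/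
noncomputable def cnt {s : ℕ} (S : Finset (Ix s → ℕ)) (ω : Ω) : ℕ := (S.filter (fun v => ∀ i, ω ∈ E (v i))).card

lemma markov {s : ℕ} (hE : ∀ n, MeasurableSet (E n)) (hI : iIndepSet E μ) (S : Finset (Ix s → ℕ)) (t : ℝ)
    (ht : 0 < t) :
    μ {ω | t ≤ (cnt E S ω : ℝ)} ≤ ENNReal.ofReal ((∑ v ∈ S, ∏ z ∈ univ.image v, μ.real (E z)) / t) := by
  classical
  obtain ⟨f, hf⟩ : ∃ f : Ω → ENNReal, f = fun ω => ∑ v ∈ S, (⋂ z ∈ univ.image v, E z).indicator (fun _ => (1 : ENNReal)) ω :=
    ⟨_, rfl⟩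
  have hm : ∀ v : Ix s → ℕ, MeasurableSet (⋂ z ∈ univ.image v, E z) := fun v =>
    Finset.measurableSet_biInter _ fun z _ => hE z
  have hfm : Measurable f := by
    rw [hf]
    exact Finset.measurable_sum _ fun v _ => measurable_const.indicator (hm v)
  have hfc : ∀ ω, f ω = (cnt E S ω : ENNReal) := by
    intro ω
    rw [hf]
    unfold cnt
    rw [Finset.card_filter]
    push_cast
    apply Finset.sum_congr rfl
    intro v _
    by_cases h : ∀ i, ω ∈ E (v i)
    · rw [if_pos h, Set.indicator_of_mem]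
      simp only [Set.mem_iInter, mem_image]
      rintro z ⟨i, _, rfl⟩
      exact h i
    · rw [if_neg h, Set.indicator_of_notMem]
      intro h1
      apply h
      intro i
      simp only [Set.mem_iInter, mem_image] at h1
      exact h1 (v i) ⟨i, mem_univ _, rfl⟩
  have hint : ∫⁻ ω, f ω ∂μ = ENNReal.ofReal (∑ v ∈ S, ∏ z ∈ univ.image v, μ.real (E z)) := by
    rw [hf, lintegral_finsetSum _ (fun v _ => measurable_const.indicator (hm v)),
      ENNReal.ofReal_sum_of_nonneg (fun v _ => Finset.prod_nonneg fun z _ => measureReal_nonneg)]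
    apply Finset.sum_congr rfl
    intro v _
    rw [lintegral_indicator (hm v), lintegral_const, one_mul, Measure.restrict_apply_univ, hI.meas_biInter,
      ENNReal.ofReal_prod_of_nonneg (fun z _ => measureReal_nonneg)]
    apply Finset.prod_congr rfl
    intro z _
    rw [ofReal_measureReal]
  have h1 : {ω | t ≤ (cnt E S ω : ℝ)} ⊆ {ω | ENNReal.ofReal t ≤ f ω} := by
    intro ω hω
    rw [Set.mem_ofPred_eq] at hω ⊢
    rw [hfc, ← ENNReal.ofReal_natCast]
    exact ENNReal.ofReal_le_ofReal hω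
  refine (measure_mono h1).trans ?_
  refine (meas_ge_le_lintegral_div hfm.aemeasurable (by simpa using ht) ENNReal.ofReal_ne_top).trans ?_
  rw [hint, ENNReal.ofReal_div_of_pos ht]

omit [IsProbabilityMeasure μ] in
lemma bc (B : ℕ → Set Ω) (C ρ : ℝ) (hρ : 0 < ρ)
    (h : ∀ L : ℕ, 1 ≤ L → μ (B L) ≤ ENNReal.ofReal (C * (2 : ℝ) ^ (-(L * ρ)))) :
    ∀ᵐ ω ∂μ, ∀ᶠ L : ℕ in atTop, ω ∉ B L := by
  have hs : Summable (fun L : ℕ => C * (2 : ℝ) ^ (-(((L + 1 : ℕ) : ℝ) * ρ))) := by
    have h1 : ∀ L : ℕ, C * (2 : ℝ) ^ (-(((L + 1 : ℕ) : ℝ) * ρ)) = C * (2 : ℝ) ^ (-ρ) * ((2 : ℝ) ^ (-ρ)) ^ L := by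
      intro L
      rw [← Real.rpow_natCast, ← Real.rpow_mul (by norm_num), mul_assoc, ← Real.rpow_add (by norm_num)]
      congr 2
      push_cast
      ring
    simp only [h1]
    apply Summable.mul_left
    apply summable_geometric_of_lt_one (by positivity)
    exact Real.rpow_lt_one_of_one_lt_of_neg (by norm_num) (by linarith)
  have h2 : ∑' L : ℕ, μ (B (L + 1)) ≠ ⊤ := by
    refine ne_of_lt (lt_of_le_of_lt (ENNReal.tsum_le_tsum fun L => h (L + 1) (by omega)) ?_)
    exact hs.tsum_ofReal_lt_top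
  filter_upwards [ae_eventually_notMem h2] with ω hω
  rw [eventually_atTop] at hω ⊢
  obtain ⟨L0, hL0⟩ := hω
  refine ⟨L0 + 1, fun L hL => ?_⟩
  have := hL0 (L - 1) (by omega)
  rwa [Nat.sub_add_cancel (by omega)] at this

/-- few non-diagonal solutions, one dyadic point -/
theorem nd_prob (s k : ℕ) (hs : 1 ≤ s) (hk : 1 ≤ k) (a : ℝ) (ha : 0 < a) (ha1 : a < 1)
    (hsk : (1 - a) * s < sk k) (C0 : ℝ) (hC0 : 0 ≤ C0) :
    ∃ C : ℝ, 1 ≤ C ∧ ∀ {Ω : Type} [MeasurableSpace Ω] (μ : Measure Ω) [IsProbabilityMeasure μ] (E : ℕ → Set Ω),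
      (∀ n, MeasurableSet (E n)) → iIndepSet E μ → ∀ L : ℕ,
      (∀ n : ℕ, 1 ≤ n → n < 2 ^ L → μ.real (E n) ≤ C0 * (n : ℝ) ^ (-a)) →
      μ {ω | (2 : ℝ) ^ (L * ((1 - a) * s - sv s k a / 4)) ≤ (cnt E (ND s k (2 ^ L)) ω : ℝ)} ≤
        ENNReal.ofReal (C * (2 : ℝ) ^ (-(L * (sv s k a / 4)))) := by
  obtain ⟨C, hC, hb⟩ := nd_bound s k hs hk a ha ha1 hsk C0 hC0
  refine ⟨C, hC, fun {Ω} _ μ _ E hE hI L hp => ?_⟩
  refine (markov μ E hE hI (ND s k (2 ^ L)) _ (by positivity)).trans ?_
  apply ENNReal.ofReal_le_ofReal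
  rw [div_le_iff₀ (by positivity)]
  have h2 := hb L (fun z => if z = 0 then 0 else μ.real (E z)) (fun z => by
    split_ifs
    · exact le_rfl
    · exact measureReal_nonneg) (by simp) (fun z hz hzL => by
    rw [if_neg (by omega)]
    exact hp z hz hzL)
  calc ∑ v ∈ ND s k (2 ^ L), ∏ z ∈ univ.image v, μ.real (E z) =
        ∑ v ∈ ND s k (2 ^ L), ∏ z ∈ univ.image v, (if z = 0 then 0 else μ.real (E z)) := by
        apply Finset.sum_congr rfl
        intro v hv
        apply Finset.prod_congr rfl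
        intro z hz
        rw [mem_image] at hz
        obtain ⟨i, _, rfl⟩ := hz
        unfold ND at hv
        rw [mem_filter, Fintype.mem_piFinset] at hv
        have := mem_Ico.1 (hv.1 i)
        rw [if_neg (by omega)]
    _ ≤ C * (2 : ℝ) ^ (L * ((1 - a) * s - sv s k a / 2)) := h2
    _ = C * (2 : ℝ) ^ (-(L * (sv s k a / 4))) * (2 : ℝ) ^ (L * ((1 - a) * s - sv s k a / 4)) := by
        rw [mul_assoc, ← Real.rpow_add (by norm_num)]
        congr 2
        ring

/-- few non-diagonal solutions -/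
theorem up (hE : ∀ n, MeasurableSet (E n)) (hI : iIndepSet E μ) (a C0 : ℝ) (ha : 0 < a) (ha1 : a < 1) (hC0 : 0 ≤ C0)
    (hp : ∀ n : ℕ, 1 ≤ n → μ.real (E n) ≤ C0 * (n : ℝ) ^ (-a)) (s k : ℕ) (hs : 1 ≤ s) (hk : 1 ≤ k)
    (hsk : (1 - a) * s < sk k) :
    ∀ᵐ ω ∂μ, ∀ᶠ L : ℕ in atTop, (cnt E (ND s k (2 ^ L)) ω : ℝ) < (2 : ℝ) ^ (L * ((1 - a) * s - sv s k a / 4)) := by
  have hsv : 0 < sv s k a := by
    unfold sv
    apply lt_min (lt_min (by linarith) (by linarith)) (by linarith)
  obtain ⟨C, hC, hb⟩ := nd_prob s k hs hk a ha ha1 hsk C0 hC0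
  have h1 := bc μ (fun L => {ω | (2 : ℝ) ^ (L * ((1 - a) * s - sv s k a / 4)) ≤ (cnt E (ND s k (2 ^ L)) ω : ℝ)}) C
    (sv s k a / 4) (by positivity) (fun L _ => hb μ E hE hI L (fun n hn _ => hp n hn))
  filter_upwards [h1] with ω hω
  filter_upwards [hω] with L hL
  exact not_le.1 hL

/-- many elements: general densities -/
theorem low_gen (hE : ∀ n, MeasurableSet (E n)) (hI : iIndepSet E μ) (M : ℕ → ℝ) (C ρ : ℝ) (hρ : 0 < ρ)
    (hM : ∀ L : ℕ, 1 ≤ L → 0 < M L ∧ 1 / M L ≤ C * (2 : ℝ) ^ (-(L * ρ)) ∧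
      M L ≤ ∑ n ∈ (range (2 ^ L)).filter (fun n => 1 ≤ n), μ.real (E n)) :
    ∀ᵐ ω ∂μ, ∀ᶠ L : ℕ in atTop, M L / 2 ≤
      ((open Classical in (range (2 ^ L)).filter (fun n => 1 ≤ n ∧ ω ∈ E n)).card : ℝ) := by
  classical
  obtain ⟨σ, hσ⟩ : ∃ σ : ℕ → ℝ, σ = fun n => μ.real (E n) := ⟨_, rfl⟩
  have h01 : ∀ n, 0 ≤ σ n ∧ σ n ≤ 1 := fun n => by
    rw [hσ]
    exact ⟨measureReal_nonneg, measureReal_le_one⟩
  have hP : ∀ n, μ (E n) = ENNReal.ofReal (σ n) := fun n => by
    rw [hσ]
    dsimp only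
    rw [ofReal_measureReal]
  obtain ⟨m, hm⟩ : ∃ m : ℕ → ℝ, m = fun L => ∑ n ∈ (range (2 ^ L)).filter (fun n => 1 ≤ n), σ n := ⟨_, rfl⟩
  have hmlow : ∀ L : ℕ, 1 ≤ L → M L ≤ m L := fun L hL => by
    rw [hm, hσ]
    exact (hM L hL).2.2
  have h1 := bc μ (fun L => {ω | ((((range (2 ^ L)).filter (fun n => 1 ≤ n ∧ ω ∈ E n)).card : ℕ) : ℝ) < m L / 2})
    (32 * C) ρ hρ (by
      intro L hL
      have hch := Pool.Agent.Helper932RM.chernoff μ E σ h01 hE hI hP (fun n => if 1 ≤ n then -1 else 0)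
        (fun n => by split_ifs <;> simp) (2 ^ L) (1 / 4) (by norm_num) (by norm_num) (m L / 2)
      have hm0 : 0 < m L := lt_of_lt_of_le (hM L hL).1 (hmlow L hL)
      have hsub : {ω | ((((range (2 ^ L)).filter (fun n => 1 ≤ n ∧ ω ∈ E n)).card : ℕ) : ℝ) < m L / 2} ⊆
          {ω | m L / 2 ≤ ∑ n ∈ Finset.range (2 ^ L), (if 1 ≤ n then (-1 : ℝ) else 0) *
            Pool.Agent.Helper932RM.cen E σ ω n} := by
        intro ω hω
        rw [Set.mem_ofPred_eq] at hω ⊢
        have e1 : ∑ n ∈ Finset.range (2 ^ L), (if 1 ≤ n then (-1 : ℝ) else 0) *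
            Pool.Agent.Helper932RM.cen E σ ω n =
            m L - ((((range (2 ^ L)).filter (fun n => 1 ≤ n ∧ ω ∈ E n)).card : ℕ) : ℝ) := by
          rw [hm, Finset.card_filter]
          push_cast
          rw [Finset.sum_filter, ← Finset.sum_sub_distrib]
          apply Finset.sum_congr rfl
          intro n _
          unfold Pool.Agent.Helper932RM.cen
          by_cases h2 : 1 ≤ n
          · by_cases h3 : ω ∈ E n
            · rw [if_pos h2, if_pos h2, if_pos ⟨h2, h3⟩, Set.indicator_of_mem h3]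
              ring
            · rw [if_pos h2, if_pos h2, if_neg (fun h => h3 h.2), Set.indicator_of_notMem h3]
              ring
          · rw [if_neg h2, if_neg h2, if_neg (fun h => h2 h.1)]
            ring
        rw [e1]
        linarith
      refine (measure_mono hsub).trans ?_
      rw [← ofReal_measureReal (μ := μ)]
      apply ENNReal.ofReal_le_ofReal
      refine hch.trans ?_
      have hsum : ∑ n ∈ Finset.range (2 ^ L), σ n ≤ m L + 1 := by
        rw [hm]
        have e2 : ∑ n ∈ Finset.range (2 ^ L), σ n =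
            ∑ n ∈ (range (2 ^ L)).filter (fun n => 1 ≤ n), σ n + ∑ n ∈ (range (2 ^ L)).filter (fun n => ¬ 1 ≤ n), σ n :=
          (Finset.sum_filter_add_sum_filter_not _ _ _).symm
        rw [e2]
        have e3 : (range (2 ^ L)).filter (fun n => ¬ 1 ≤ n) = {0} := by
          ext n
          rw [mem_filter, mem_range, mem_singleton]
          constructor
          · rintro ⟨_, h⟩
            omega
          · rintro rfl
            exact ⟨by positivity, by omega⟩
        rw [e3, Finset.sum_singleton]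
        linarith [(h01 0).2]
      have hexp : Real.exp (-(1 / 4) * (m L / 2) + (1 / 4) ^ 2 * ∑ n ∈ Finset.range (2 ^ L), σ n) ≤ 2 * (16 / m L) := by
        calc Real.exp (-(1 / 4) * (m L / 2) + (1 / 4) ^ 2 * ∑ n ∈ Finset.range (2 ^ L), σ n) ≤
              Real.exp (1 / 16 + -(m L / 16)) := by
              apply Real.exp_le_exp.2
              nlinarith
          _ = Real.exp (1 / 16) * Real.exp (-(m L / 16)) := Real.exp_add _ _
          _ ≤ 2 * (16 / m L) := by
              apply mul_le_mul _ _ (Real.exp_pos _).le (by norm_num)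
              · have h2 : Real.exp (1 / 16) ≤ Real.exp (Real.log 2) := by
                  apply Real.exp_le_exp.2
                  have := Real.log_two_gt_d9
                  linarith
                rwa [Real.exp_log (by norm_num)] at h2
              · rw [Real.exp_neg]
                have h2 := Real.add_one_le_exp (m L / 16)
                rw [inv_eq_one_div]
                calc 1 / Real.exp (m L / 16) ≤ 1 / (m L / 16) :=
                      one_div_le_one_div_of_le (by positivity) (by linarith)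
                  _ = 16 / m L := by field_simp
      refine hexp.trans ?_
      have hml := hmlow L hL
      calc 2 * (16 / m L) = 32 * (1 / m L) := by ring
        _ ≤ 32 * (1 / M L) :=
            mul_le_mul_of_nonneg_left (one_div_le_one_div_of_le (hM L hL).1 hml) (by norm_num)
        _ ≤ 32 * (C * (2 : ℝ) ^ (-(L * ρ))) := mul_le_mul_of_nonneg_left (hM L hL).2.1 (by norm_num)
        _ = 32 * C * (2 : ℝ) ^ (-(L * ρ)) := by ring)
  filter_upwards [h1] with ω hω
  filter_upwards [hω, eventually_ge_atTop 1] with L hL hL1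
  have h2 := hmlow L hL1
  refine le_trans ?_ (not_lt.1 hL)
  linarith

/-- many elements -/
theorem low (hE : ∀ n, MeasurableSet (E n)) (hI : iIndepSet E μ) (a c : ℝ) (ha : 0 < a) (ha1 : a < 1) (hc : 0 < c)
    (hp : ∀ n : ℕ, 1 ≤ n → c * (n : ℝ) ^ (-a) ≤ μ.real (E n)) :
    ∀ᵐ ω ∂μ, ∀ᶠ L : ℕ in atTop, c / 4 * (2 : ℝ) ^ (L * (1 - a)) ≤
      ((open Classical in (range (2 ^ L)).filter (fun n => 1 ≤ n ∧ ω ∈ E n)).card : ℝ) := by
  classical
  have hmlow : ∀ L : ℕ, 1 ≤ L → c / 2 * (2 : ℝ) ^ (L * (1 - a)) ≤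
      ∑ n ∈ (range (2 ^ L)).filter (fun n => 1 ≤ n), μ.real (E n) := by
    intro L hL
    have hcard : ((range (2 ^ L)).filter (fun n => 1 ≤ n)).card = 2 ^ L - 1 := by
      have : (range (2 ^ L)).filter (fun n => 1 ≤ n) = Ico 1 (2 ^ L) := by
        ext n
        rw [mem_filter, mem_range, mem_Ico]
        omega
      rw [this, Nat.card_Ico]
    have h2L : 2 ≤ 2 ^ L := by
      calc 2 = 2 ^ 1 := rfl
        _ ≤ 2 ^ L := Nat.pow_le_pow_right (by norm_num) hL
    calc c / 2 * (2 : ℝ) ^ (L * (1 - a)) = (2 : ℝ) ^ (L : ℝ) / 2 * (c * (2 : ℝ) ^ (-a * L)) := by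
          have : (2 : ℝ) ^ (L * (1 - a)) = (2 : ℝ) ^ (L : ℝ) * (2 : ℝ) ^ (-a * L) := by
            rw [← Real.rpow_add (by norm_num)]
            congr 1
            ring
          rw [this]
          ring
      _ ≤ ((2 ^ L - 1 : ℕ) : ℝ) * (c * (2 : ℝ) ^ (-a * L)) := by
          apply mul_le_mul_of_nonneg_right _ (by positivity)
          rw [Nat.cast_sub (by omega), Real.rpow_natCast]
          push_cast
          have : (2 : ℝ) ≤ 2 ^ L := by exact_mod_cast h2L
          linarith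
      _ = ∑ n ∈ (range (2 ^ L)).filter (fun n => 1 ≤ n), (c * (2 : ℝ) ^ (-a * L)) := by
          rw [Finset.sum_const, hcard, nsmul_eq_mul]
      _ ≤ _ := by
          apply Finset.sum_le_sum
          intro n hn
          rw [mem_filter, mem_range] at hn
          refine le_trans ?_ (hp n hn.2)
          apply mul_le_mul_of_nonneg_left _ hc.le
          have hn0 : (0 : ℝ) < n := by exact_mod_cast hn.2
          have hn1 : (n : ℝ) ≤ (2 : ℝ) ^ (L : ℝ) := by
            rw [Real.rpow_natCast]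
            exact_mod_cast hn.1.le
          calc (2 : ℝ) ^ (-a * L) = ((2 : ℝ) ^ (L : ℝ)) ^ (-a) := by
                rw [← Real.rpow_mul (by norm_num)]
                congr 1
                ring
            _ ≤ (n : ℝ) ^ (-a) := Real.rpow_le_rpow_of_nonpos hn0 hn1 (by linarith)
  have h1 := low_gen μ E hE hI (fun L => c / 2 * (2 : ℝ) ^ (L * (1 - a))) (2 / c) (1 - a) (by linarith) (by
    intro L hL
    refine ⟨by positivity, le_of_eq ?_, hmlow L hL⟩
    rw [Real.rpow_neg (by norm_num)]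
    field_simp)
  filter_upwards [h1] with ω hω
  filter_upwards [hω] with L hL
  refine le_trans (le_of_eq ?_) hL
  ring

end Pool.Agent.L5helper4.VR
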