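import Pool.Agent.L5helper4.VR.V5

set_option autoImplicit false

/-!
# Solutions in a finite set: diagonal ones, pigeonhole
-/

open Finset

namespace Pool.Agent.L5helper4.VR

open Pool.Agent.helper132_dc (sk)

open Classical in
/-- the solutions in `A` of Vinogradov's system of degree `k` in `s` pairs of variables -/
noncomputable def sols (s k : ℕ) (A : Finset ℕ) : Finset ((Fin s → ℕ) × (Fin s → ℕ)) :=
  ((Fintype.piFinset fun _ : Fin s => A) ×ˢ (Fintype.piFinset fun _ : Fin s => A)).filter
    (fun p => ∀ j : Fin k, ∑ i, p.1 i ^ (j.val + 1) = ∑ i, p.2 i ^ (j.val + 1))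

open Classical in
/-- the non-diagonal ones -/
noncomputable def nond (s k : ℕ) (A : Finset ℕ) : Finset ((Fin s → ℕ) × (Fin s → ℕ)) :=
  (sols s k A).filter (fun p => ¬ ∃ σ : Equiv.Perm (Fin s), p.2 = p.1 ∘ σ)

open Classical in
lemma nond_le (s k X : ℕ) (A : Finset ℕ) (hA : A ⊆ Ico 1 X) :
    (nond s k A).card ≤ ((ND s k X).filter (fun v => ∀ i, v i ∈ A)).card := by
  apply Finset.card_le_card_of_injOn (fun p : (Fin s → ℕ) × (Fin s → ℕ) => (Sum.elim p.1 p.2 : Ix s → ℕ))
  · intro p hp
    rw [mem_coe] at hp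
    unfold nond sols at hp
    rw [mem_filter, mem_filter, mem_product, Fintype.mem_piFinset, Fintype.mem_piFinset] at hp
    obtain ⟨⟨⟨h1, h2⟩, h3⟩, h4⟩ := hp
    rw [mem_coe, mem_filter]
    unfold ND
    rw [mem_filter, Fintype.mem_piFinset]
    have hall : ∀ i : Ix s, (Sum.elim p.1 p.2 : Ix s → ℕ) i ∈ A := by
      rintro (i | i)
      · exact h1 i
      · exact h2 i
    refine ⟨⟨fun i => hA (hall i), fun j => ?_, ?_⟩, hall⟩
    · rw [Fintype.sum_sum_type]
      simp only [sg, Sum.elim_inl, Sum.elim_inr]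
      have h5 := h3 j
      have h6 : ((∑ i, p.1 i ^ (j.val + 1) : ℕ) : ℤ) = ((∑ i, p.2 i ^ (j.val + 1) : ℕ) : ℤ) := by rw [h5]
      push_cast at h6
      simp only [one_mul, neg_mul, Finset.sum_neg_distrib]
      rw [h6]
      ring
    · rintro ⟨σ, hσ⟩
      apply h4
      refine ⟨σ, ?_⟩
      funext i
      exact hσ i
  · intro p _ p' _ h
    dsimp only at h
    apply Prod.ext
    · funext i
      exact congrFun h (Sum.inl i)
    · funext i
      exact congrFun h (Sum.inr i)

lemma sols_upper (s k : ℕ) (A : Finset ℕ) :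
    (sols s k A).card ≤ s.factorial * A.card ^ s + (nond s k A).card := by
  classical
  have h1 : (sols s k A).card = ((sols s k A).filter (fun p => ∃ σ : Equiv.Perm (Fin s), p.2 = p.1 ∘ σ)).card +
      (nond s k A).card := by
    unfold nond
    rw [Finset.card_filter_add_card_filter_not]
  rw [h1]
  apply Nat.add_le_add_right
  have h2 : (sols s k A).filter (fun p => ∃ σ : Equiv.Perm (Fin s), p.2 = p.1 ∘ σ) ⊆
      ((univ : Finset (Equiv.Perm (Fin s))) ×ˢ (Fintype.piFinset fun _ : Fin s => A)).image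
        (fun q => (q.2, q.2 ∘ q.1)) := by
    intro p hp
    rw [mem_filter] at hp
    obtain ⟨hp1, σ, hσ⟩ := hp
    unfold sols at hp1
    rw [mem_filter, mem_product] at hp1
    rw [mem_image]
    refine ⟨(σ, p.1), ?_, ?_⟩
    · rw [mem_product]
      exact ⟨mem_univ _, hp1.1.1⟩
    · dsimp only
      rw [← hσ]
  refine (card_le_card h2).trans (card_image_le.trans (le_of_eq ?_))
  rw [card_product, card_univ, Fintype.card_perm, Fintype.card_fin, Fintype.card_piFinset_const]

lemma sols_lower (s k : ℕ) (A : Finset ℕ) :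
    s.factorial * A.card.descFactorial s ≤ (sols s k A).card := by
  classical
  have h1 : (univ : Finset ((Fin s ↪ A) × Equiv.Perm (Fin s))).card ≤ (sols s k A).card := by
    apply Finset.card_le_card_of_injOn (fun q : (Fin s ↪ A) × Equiv.Perm (Fin s) =>
      ((fun i => ((q.1 i : A) : ℕ)), (fun i => ((q.1 (q.2 i) : A) : ℕ))))
    · intro q _
      rw [mem_coe]
      unfold sols
      rw [mem_filter, mem_product, Fintype.mem_piFinset, Fintype.mem_piFinset]
      refine ⟨⟨fun i => (q.1 i).2, fun i => (q.1 (q.2 i)).2⟩, fun j => ?_⟩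
      exact (Equiv.sum_comp q.2 (fun i => ((q.1 i : A) : ℕ) ^ (j.val + 1))).symm
    · intro q _ q' _ h
      rw [Prod.mk.injEq] at h
      have h2 : q.1 = q'.1 := by
        ext i
        exact congrFun h.1 i
      apply Prod.ext h2
      ext i
      have h3 := congrFun h.2 i
      rw [h2] at h3
      have h4 := q'.1.injective (Subtype.ext h3)
      rw [h4]
  rw [card_univ, Fintype.card_prod, Fintype.card_embedding_eq, Fintype.card_perm, Fintype.card_fin,
    Fintype.card_coe] at h1
  rw [mul_comm]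
  exact h1

/-- the pigeonhole principle -/
lemma pigeon (s k N : ℕ) (A : Finset ℕ) (hA : A ⊆ Icc 1 N) (hN : 1 ≤ N) :
    (A.card ^ s) ^ 2 ≤ (s + 1) ^ k * N ^ sk k * (sols s k A).card := by
  classical
  obtain ⟨P, hP⟩ : ∃ P : Finset (Fin s → ℕ), P = Fintype.piFinset fun _ : Fin s => A := ⟨_, rfl⟩
  obtain ⟨f, hf⟩ : ∃ f : (Fin s → ℕ) → (Fin k → ℕ), f = fun x j => ∑ i, x i ^ (j.val + 1) := ⟨_, rfl⟩
  obtain ⟨T, hT⟩ : ∃ T : Finset (Fin k → ℕ), T = Fintype.piFinset fun j : Fin k => range (s * N ^ (j.val + 1) + 1) :=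
    ⟨_, rfl⟩
  have hmaps : ∀ x ∈ P, f x ∈ T := by
    intro x hx
    rw [hP, Fintype.mem_piFinset] at hx
    rw [hT, Fintype.mem_piFinset, hf]
    intro j
    rw [mem_range, Nat.lt_succ_iff]
    calc ∑ i, x i ^ (j.val + 1) ≤ ∑ _i : Fin s, N ^ (j.val + 1) :=
          Finset.sum_le_sum fun i _ => Nat.pow_le_pow_left (mem_Icc.1 (hA (hx i))).2 _
      _ = s * N ^ (j.val + 1) := by simp
  have hcP : P.card = A.card ^ s := by rw [hP, Fintype.card_piFinset_const]
  have h1 : P.card = ∑ h ∈ T, (P.filter (fun x => f x = h)).card := Finset.card_eq_sum_card_fiberwise hmaps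
  have h2 : (sols s k A).card = ∑ h ∈ T, (P.filter (fun x => f x = h)).card ^ 2 := by
    have e1 : ∀ p ∈ sols s k A, f p.1 ∈ T := by
      intro p hp
      unfold sols at hp
      rw [mem_filter, mem_product, ← hP] at hp
      exact hmaps _ hp.1.1
    rw [Finset.card_eq_sum_card_fiberwise e1]
    apply Finset.sum_congr rfl
    intro h _
    rw [sq, ← Finset.card_product]
    congr 1
    ext p
    unfold sols
    rw [mem_filter, mem_filter, mem_product, mem_product, mem_filter, mem_filter, ← hP, hf]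
    constructor
    · rintro ⟨⟨⟨a1, a2⟩, a3⟩, a4⟩
      refine ⟨⟨a1, a4⟩, a2, ?_⟩
      rw [← a4]
      funext j
      exact (a3 j).symm
    · rintro ⟨⟨a1, a4⟩, a2, a5⟩
      refine ⟨⟨⟨a1, a2⟩, fun j => ?_⟩, a4⟩
      rw [← a5] at a4
      exact congrFun a4 j
  have h3 : (∑ h ∈ T, (P.filter (fun x => f x = h)).card) ^ 2 ≤
      T.card * ∑ h ∈ T, (P.filter (fun x => f x = h)).card ^ 2 := sq_sum_le_card_mul_sum_sq
  rw [← h1, ← h2, hcP] at h3
  refine h3.trans (Nat.mul_le_mul_right _ ?_)
  rw [hT, Fintype.card_piFinset]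
  calc ∏ j : Fin k, (range (s * N ^ (j.val + 1) + 1)).card ≤ ∏ j : Fin k, (s + 1) * N ^ (j.val + 1) := by
        apply Finset.prod_le_prod' 
        intro j _
        rw [card_range, add_mul, one_mul]
        have := Nat.one_le_pow (j.val + 1) N hN
        omega
    _ = (s + 1) ^ k * N ^ sk k := by
        rw [Finset.prod_mul_distrib, Finset.prod_const, card_univ, Fintype.card_fin, Finset.prod_pow_eq_pow_sum]
        congr 2
        have h4 := Finset.sum_range (fun j => j + 1) (n := k)
        rw [← h4]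
        have h5 : ∀ n : ℕ, 2 * ∑ i ∈ range n, (i + 1) = n * (n + 1) := by
          intro n
          induction n with
          | zero => simp
          | succ n ih => rw [Finset.sum_range_succ, mul_add, ih]; ring
        have h6 := Pool.Agent.helper132_dc.two_sk k
        have h7 := h5 k
        omega

end Pool.Agent.L5helper4.VR
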