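import Pool.Agent.L5helper4.VR.V6

set_option autoImplicit false

/-!
# Random sets of density `n ^ (-a)`: the sharp threshold
-/

open Finset MeasureTheory ProbabilityTheory Filter

namespace Pool.Agent.L5helper4.VR

open Pool.Agent.helper132_dc (sk)

open Classical in
/-- the chosen elements up to `N` -/
noncomputable def An {Ω : Type} (E : ℕ → Set Ω) (N : ℕ) (ω : Ω) : Finset ℕ := (Icc 1 N).filter (fun n => ω ∈ E n)

lemma An_mono {Ω : Type} (E : ℕ → Set Ω) {N N' : ℕ} (h : N ≤ N') (ω : Ω) : (An E N ω).card ≤ (An E N' ω).card := by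
  classical
  apply card_le_card
  unfold An
  exact Finset.filter_subset_filter _ (Finset.Icc_subset_Icc_right h)

lemma low_An {Ω : Type} (E : ℕ → Set Ω) (N L : ℕ) (h : 2 ^ L ≤ N) (ω : Ω) :
    (open Classical in (range (2 ^ L)).filter (fun n => 1 ≤ n ∧ ω ∈ E n)).card ≤ (An E N ω).card := by
  classical
  apply card_le_card
  intro n hn
  unfold An
  rw [mem_filter, mem_range] at hn
  rw [mem_filter, mem_Icc]
  exact ⟨⟨hn.2.1, by omega⟩, hn.2.2⟩

lemma nond_cnt {Ω : Type} (E : ℕ → Set Ω) (s k N L : ℕ) (h : N < 2 ^ L) (ω : Ω) :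
    (nond s k (An E N ω)).card ≤ cnt E (ND s k (2 ^ L)) ω := by
  classical
  have h1 := nond_le s k (2 ^ L) (An E N ω) (by
    intro n hn
    unfold An at hn
    rw [mem_filter, mem_Icc] at hn
    rw [mem_Ico]
    exact ⟨hn.1.1, by omega⟩)
  refine h1.trans ?_
  unfold cnt
  apply card_le_card
  intro v hv
  rw [mem_filter] at hv ⊢
  refine ⟨hv.1, fun i => ?_⟩
  have := hv.2 i
  unfold An at this
  rw [mem_filter] at this
  exact this.2

/-- the diagonal solutions, lower bound -/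
lemma desc_low (s R : ℕ) (hR : s ≤ R) (hR1 : 1 ≤ R) (hs : 1 ≤ s) :
    (R : ℝ) ^ s - (s : ℝ) ^ 2 * (R : ℝ) ^ (s - 1) ≤ (R.descFactorial s : ℝ) := by
  have h1 : (R + 1 - s) ^ s ≤ R.descFactorial s := Nat.pow_sub_le_descFactorial R s
  have hR0 : (0 : ℝ) < R := by exact_mod_cast hR1
  have h2 : (R : ℝ) * (1 - s / R) ≤ ((R + 1 - s : ℕ) : ℝ) := by
    rw [Nat.cast_sub (by omega)]
    push_cast
    rw [mul_sub, mul_div_cancel₀ _ hR0.ne']
    linarith
  have h3 : 0 ≤ (1 : ℝ) - s / R := by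
    rw [sub_nonneg, div_le_one hR0]
    exact_mod_cast hR
  have h4 : 1 - (s : ℝ) * (s / R) ≤ (1 - s / R) ^ s := by
    have h5 := one_add_mul_le_pow (a := -((s : ℝ) / R)) (by
      have : (s : ℝ) / R ≤ 1 := by linarith
      linarith) s
    calc 1 - (s : ℝ) * (s / R) = 1 + s * (-(s / R)) := by ring
      _ ≤ (1 + -((s : ℝ) / R)) ^ s := h5
      _ = _ := by ring
  have h6 : ((R + 1 - s : ℕ) : ℝ) ^ s ≤ (R.descFactorial s : ℝ) := by exact_mod_cast h1
  refine le_trans ?_ h6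
  calc (R : ℝ) ^ s - (s : ℝ) ^ 2 * (R : ℝ) ^ (s - 1) = (R : ℝ) ^ s * (1 - (s : ℝ) * (s / R)) := by
        have h7 : (R : ℝ) ^ s = (R : ℝ) ^ (s - 1) * R := by
          rw [← pow_succ]
          congr 1
          omega
        rw [h7]
        field_simp
    _ ≤ (R : ℝ) ^ s * (1 - s / R) ^ s := mul_le_mul_of_nonneg_left h4 (by positivity)
    _ = ((R : ℝ) * (1 - s / R)) ^ s := by rw [mul_pow]
    _ ≤ _ := pow_le_pow_left₀ (by positivity) h2 s

/-- eventually `c ≤ R ^ δ` -/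
lemma ev_rpow (R : ℕ → ℕ) (hR : Tendsto (fun N => (R N : ℝ)) atTop atTop) (c δ : ℝ) (hδ : 0 < δ) :
    ∀ᶠ N in atTop, c ≤ (R N : ℝ) ^ δ :=
  ((tendsto_rpow_atTop hδ).comp hR).eventually_ge_atTop c

/-- the deterministic part -/
theorem fixed {Ω : Type} (E : ℕ → Set Ω) (ω : Ω) (a c : ℝ) (ha : 0 < a) (ha1 : a < 1) (hc : 0 < c)
    (hlow : ∀ᶠ L : ℕ in atTop, c * (2 : ℝ) ^ (L * (1 - a)) ≤
      ((open Classical in (range (2 ^ L)).filter (fun n => 1 ≤ n ∧ ω ∈ E n)).card : ℝ))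
    (s k : ℕ) (hs : 1 ≤ s) :
    ((∃ τ : ℝ, 0 < τ ∧ τ < (1 - a) * s ∧
      ∀ᶠ L : ℕ in atTop, (cnt E (ND s k (2 ^ L)) ω : ℝ) < (2 : ℝ) ^ (L * ((1 - a) * s - τ))) →
      ∃ δ : ℝ, 0 < δ ∧ ∀ᶠ N : ℕ in atTop,
        ((nond s k (An E N ω)).card : ℝ) ≤ ((An E N ω).card : ℝ) ^ ((s : ℝ) - δ) ∧
        |((sols s k (An E N ω)).card : ℝ) - s.factorial * ((An E N ω).card : ℝ) ^ s| ≤
          ((An E N ω).card : ℝ) ^ ((s : ℝ) - δ)) ∧
    ((sk k : ℝ) < (1 - a) * s → ∃ δ : ℝ, 0 < δ ∧ ∀ᶠ N : ℕ in atTop,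
        ((An E N ω).card : ℝ) ^ ((s : ℝ) + δ) ≤ ((sols s k (An E N ω)).card : ℝ)) := by
  classical
  have hb : 0 < 1 - a := by linarith
  obtain ⟨R, hR⟩ : ∃ R : ℕ → ℕ, R = fun N => (An E N ω).card := ⟨_, rfl⟩
  obtain ⟨L0, hL0⟩ := eventually_atTop.1 hlow
  -- lower bound for the number of elements
  have hRlow : ∀ᶠ N : ℕ in atTop, ∃ L : ℕ, 2 ^ L ≤ N ∧ N < 2 ^ (L + 1) ∧ c * (2 : ℝ) ^ (L * (1 - a)) ≤ R N := by
    filter_upwards [eventually_ge_atTop (2 ^ L0), eventually_ge_atTop 1] with N hN hN1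
    refine ⟨Nat.log 2 N, Nat.pow_log_le_self 2 (by omega), Nat.lt_pow_succ_log_self (by norm_num) N, ?_⟩
    have h1 : L0 ≤ Nat.log 2 N := Nat.le_log_of_pow_le (by norm_num) hN
    refine (hL0 _ h1).trans ?_
    rw [hR]
    exact_mod_cast low_An E N (Nat.log 2 N) (Nat.pow_log_le_self 2 (by omega)) ω
  have hRN : ∀ᶠ N : ℕ in atTop, c / 2 * (N : ℝ) ^ (1 - a) ≤ R N := by
    filter_upwards [hRlow] with N ⟨L, h1, h2, h3⟩
    refine le_trans ?_ h3
    have h4 : (N : ℝ) ≤ (2 : ℝ) ^ ((L : ℝ) + 1) := by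
      rw [Real.rpow_add (by norm_num), Real.rpow_natCast, Real.rpow_one, ← pow_succ]
      exact_mod_cast h2.le
    calc c / 2 * (N : ℝ) ^ (1 - a) ≤ c / 2 * ((2 : ℝ) ^ ((L : ℝ) + 1)) ^ (1 - a) := by
          apply mul_le_mul_of_nonneg_left _ (by positivity)
          exact Real.rpow_le_rpow (by positivity) h4 hb.le
      _ = c / 2 * ((2 : ℝ) ^ (L * (1 - a)) * (2 : ℝ) ^ (1 - a)) := by
          rw [← Real.rpow_mul (by norm_num), ← Real.rpow_add (by norm_num)]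
          congr 2
          ring
      _ ≤ c / 2 * ((2 : ℝ) ^ (L * (1 - a)) * 2) := by
          apply mul_le_mul_of_nonneg_left _ (by positivity)
          apply mul_le_mul_of_nonneg_left _ (by positivity)
          calc (2 : ℝ) ^ (1 - a) ≤ 2 ^ (1 : ℝ) := Real.rpow_le_rpow_of_exponent_le (by norm_num) (by linarith)
            _ = 2 := Real.rpow_one _
      _ = c * (2 : ℝ) ^ (L * (1 - a)) := by ring
  have hRt : Tendsto (fun N => (R N : ℝ)) atTop atTop := by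
    apply tendsto_atTop_mono' _ hRN
    exact Tendsto.const_mul_atTop (by positivity) ((tendsto_rpow_atTop hb).comp tendsto_natCast_atTop_atTop)
  refine ⟨?_, ?_⟩
  · rintro ⟨τ, hτ, hτ1, hup⟩
    obtain ⟨L1, hL1⟩ := eventually_atTop.1 hup
    obtain ⟨e, he⟩ : ∃ e : ℝ, e = (1 - a) * s - τ := ⟨_, rfl⟩
    have he0 : 0 < e := by rw [he]; linarith
    obtain ⟨δ, hδ⟩ : ∃ δ : ℝ, δ = τ / (2 * (1 - a)) := ⟨_, rfl⟩
    have hδ0 : 0 < δ := by rw [hδ]; positivity
    obtain ⟨δ', hδ'⟩ : ∃ δ' : ℝ, δ' = min δ (1 / 2) := ⟨_, rfl⟩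
    have hδ'0 : 0 < δ' := by rw [hδ']; exact lt_min hδ0 (by norm_num)
    obtain ⟨δ'', hδ''⟩ : ∃ δ'' : ℝ, δ'' = δ' / 2 := ⟨_, rfl⟩
    have hδ''0 : 0 < δ'' := by rw [hδ'']; positivity
    refine ⟨δ'', hδ''0, ?_⟩
    have hnd : ∀ᶠ N : ℕ in atTop, ((nond s k (An E N ω)).card : ℝ) ≤ (R N : ℝ) ^ ((s : ℝ) - δ') := by
      filter_upwards [hRlow, ev_rpow R hRt ((2 / c) ^ (e / (1 - a))) δ hδ0, eventually_ge_atTop (2 ^ L1),
        hRt.eventually_ge_atTop 1] with N ⟨L, h1, h2, h3⟩ h4 h5 h6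
      have hLL : L1 ≤ L + 1 := by
        by_contra hcon
        push Not at hcon
        have : 2 ^ (L + 1) ≤ 2 ^ L1 := Nat.pow_le_pow_right (by norm_num) (by omega)
        omega
      have h7 := hL1 (L + 1) hLL
      have h8 : ((nond s k (An E N ω)).card : ℝ) ≤ (cnt E (ND s k (2 ^ (L + 1))) ω : ℝ) := by
        exact_mod_cast nond_cnt E s k N (L + 1) h2 ω
      have hR0 : (0 : ℝ) < R N := by linarith
      have h9 : (2 : ℝ) ^ (((L + 1 : ℕ) : ℝ) * (1 - a)) ≤ 2 / c * R N := by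
        calc (2 : ℝ) ^ (((L + 1 : ℕ) : ℝ) * (1 - a)) = (2 : ℝ) ^ (1 - a) * (2 : ℝ) ^ (L * (1 - a)) := by
              rw [← Real.rpow_add (by norm_num)]
              congr 1
              push_cast
              ring
          _ ≤ 2 * (R N / c) := by
              apply mul_le_mul _ _ (by positivity) (by norm_num)
              · calc (2 : ℝ) ^ (1 - a) ≤ 2 ^ (1 : ℝ) := Real.rpow_le_rpow_of_exponent_le (by norm_num) (by linarith)
                  _ = 2 := Real.rpow_one _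
              · rw [le_div_iff₀ hc]
                linarith
          _ = _ := by ring
      calc ((nond s k (An E N ω)).card : ℝ) ≤ (2 : ℝ) ^ (((L + 1 : ℕ) : ℝ) * ((1 - a) * s - τ)) := h8.trans h7.le
        _ = ((2 : ℝ) ^ (((L + 1 : ℕ) : ℝ) * (1 - a))) ^ (e / (1 - a)) := by
            rw [← Real.rpow_mul (by norm_num), ← he]
            congr 1
            field_simp
        _ ≤ (2 / c * R N) ^ (e / (1 - a)) := Real.rpow_le_rpow (by positivity) h9 (by positivity)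
        _ = (2 / c) ^ (e / (1 - a)) * (R N : ℝ) ^ (e / (1 - a)) := Real.mul_rpow (by positivity) hR0.le
        _ ≤ (R N : ℝ) ^ δ * (R N : ℝ) ^ (e / (1 - a)) := mul_le_mul_of_nonneg_right h4 (by positivity)
        _ = (R N : ℝ) ^ ((s : ℝ) - δ) := by
            rw [← Real.rpow_add hR0]
            congr 1
            rw [hδ, he]
            field_simp
            ring
        _ ≤ (R N : ℝ) ^ ((s : ℝ) - δ') := by
            apply Real.rpow_le_rpow_of_exponent_le h6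
            have : δ' ≤ δ := by rw [hδ']; exact min_le_left _ _
            linarith
    filter_upwards [hnd, ev_rpow R hRt (s.factorial * (s : ℝ) ^ 2 + 1) (1 / 2) (by norm_num),
      ev_rpow R hRt 1 δ'' hδ''0, ev_rpow R hRt 2 δ'' hδ''0, hRt.eventually_ge_atTop 1, hRt.eventually_ge_atTop s]
      with N h1 h2 h3 h3' h4 h5
    have hR0 : (0 : ℝ) < R N := by linarith
    have hRe : ((An E N ω).card : ℝ) = R N := by rw [hR]
    rw [hRe]
    have hmono : (R N : ℝ) ^ ((s : ℝ) - δ') ≤ (R N : ℝ) ^ ((s : ℝ) - δ'') := by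
      apply Real.rpow_le_rpow_of_exponent_le h4
      rw [hδ'']
      linarith
    have hup2 := sols_upper s k (An E N ω)
    have hlo2 := sols_lower s k (An E N ω)
    have hRe' : (An E N ω).card = R N := by rw [hR]
    rw [hRe'] at hup2 hlo2
    have hdl := desc_low s (R N) (by exact_mod_cast h5) (by exact_mod_cast h4) hs
    refine ⟨h1.trans hmono, ?_⟩
    rw [abs_le]
    have hf : (0 : ℝ) ≤ s.factorial := by positivity
    constructor
    · have e1 : (s.factorial : ℝ) * (R N).descFactorial s ≤ ((sols s k (An E N ω)).card : ℝ) := by exact_mod_cast hlo2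
      have e2 := mul_le_mul_of_nonneg_left hdl hf
      have e3 : (s.factorial : ℝ) * ((s : ℝ) ^ 2 * (R N : ℝ) ^ (s - 1)) ≤ (R N : ℝ) ^ ((s : ℝ) - δ'') := by
        calc (s.factorial : ℝ) * ((s : ℝ) ^ 2 * (R N : ℝ) ^ (s - 1)) =
              (s.factorial * (s : ℝ) ^ 2) * (R N : ℝ) ^ ((s : ℝ) - 1) := by
              rw [← Real.rpow_natCast (R N : ℝ) (s - 1), Nat.cast_sub hs]
              push_cast
              ring
          _ ≤ (R N : ℝ) ^ (1 / 2 : ℝ) * (R N : ℝ) ^ ((s : ℝ) - 1) := by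
              apply mul_le_mul_of_nonneg_right _ (by positivity)
              linarith
          _ = (R N : ℝ) ^ ((s : ℝ) - 1 / 2) := by
              rw [← Real.rpow_add hR0]
              congr 1
              ring
          _ ≤ (R N : ℝ) ^ ((s : ℝ) - δ'') := by
              apply Real.rpow_le_rpow_of_exponent_le h4
              have : δ' ≤ 1 / 2 := by rw [hδ']; exact min_le_right _ _
              rw [hδ'']
              linarith
      nlinarith
    · have e1 : ((sols s k (An E N ω)).card : ℝ) ≤ s.factorial * (R N : ℝ) ^ s + ((nond s k (An E N ω)).card : ℝ) := by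
        exact_mod_cast hup2
      linarith [h1.trans hmono]
  · intro hsk
    obtain ⟨δ, hδ⟩ : ∃ δ : ℝ, δ = (s - sk k / (1 - a)) / 2 := ⟨_, rfl⟩
    have hδ0 : 0 < δ := by
      rw [hδ]
      have : (sk k : ℝ) / (1 - a) < s := by
        rw [div_lt_iff₀ hb]
        linarith
      linarith
    refine ⟨δ, hδ0, ?_⟩
    filter_upwards [hRN, hRt.eventually_ge_atTop 1, eventually_ge_atTop 1,
      ev_rpow R hRt (((s : ℝ) + 1) ^ k * (2 / c) ^ ((sk k : ℝ) / (1 - a))) δ hδ0] with N h1 h2 h3 h4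
    have hR0 : (0 : ℝ) < R N := by linarith
    have hN0 : (0 : ℝ) < N := by exact_mod_cast h3
    have hRe : ((An E N ω).card : ℝ) = R N := by rw [hR]
    have hRe' : (An E N ω).card = R N := by rw [hR]
    have hp := pigeon s k N (An E N ω) (by
      unfold An
      exact filter_subset _ _) h3
    rw [hRe'] at hp
    rw [hRe]
    have h5 : (((R N : ℝ) ^ s) ^ 2) ≤ ((s : ℝ) + 1) ^ k * (N : ℝ) ^ sk k * ((sols s k (An E N ω)).card : ℝ) := by
      exact_mod_cast hp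
    have h6 : (N : ℝ) ^ sk k ≤ (2 / c) ^ ((sk k : ℝ) / (1 - a)) * (R N : ℝ) ^ ((sk k : ℝ) / (1 - a)) := by
      rw [← Real.mul_rpow (by positivity) hR0.le]
      calc (N : ℝ) ^ sk k = ((N : ℝ) ^ (1 - a)) ^ ((sk k : ℝ) / (1 - a)) := by
            rw [← Real.rpow_mul hN0.le, ← Real.rpow_natCast]
            congr 1
            field_simp
        _ ≤ _ := by
            apply Real.rpow_le_rpow (by positivity) _ (by positivity)
            calc (N : ℝ) ^ (1 - a) = 2 / c * (c / 2 * (N : ℝ) ^ (1 - a)) := by field_simp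
              _ ≤ 2 / c * R N := mul_le_mul_of_nonneg_left h1 (by positivity)
    obtain ⟨J, hJ⟩ : ∃ J : ℝ, J = ((sols s k (An E N ω)).card : ℝ) := ⟨_, rfl⟩
    have hJ0 : 0 ≤ J := by rw [hJ]; exact Nat.cast_nonneg _
    rw [← hJ] at h5 ⊢
    have h7 : (R N : ℝ) ^ (2 * (s : ℝ)) ≤ (R N : ℝ) ^ (δ + (sk k : ℝ) / (1 - a)) * J := by
      calc (R N : ℝ) ^ (2 * (s : ℝ)) = ((R N : ℝ) ^ s) ^ 2 := by
            rw [← pow_mul, ← Real.rpow_natCast]
            congr 1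
            push_cast
            ring
        _ ≤ ((s : ℝ) + 1) ^ k * (N : ℝ) ^ sk k * J := h5
        _ ≤ ((s : ℝ) + 1) ^ k * ((2 / c) ^ ((sk k : ℝ) / (1 - a)) * (R N : ℝ) ^ ((sk k : ℝ) / (1 - a))) * J := by
            gcongr
        _ = (((s : ℝ) + 1) ^ k * (2 / c) ^ ((sk k : ℝ) / (1 - a))) * (R N : ℝ) ^ ((sk k : ℝ) / (1 - a)) * J := by ring
        _ ≤ (R N : ℝ) ^ δ * (R N : ℝ) ^ ((sk k : ℝ) / (1 - a)) * J := by gcongr
        _ = _ := by rw [← Real.rpow_add hR0]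
    have h8 : (R N : ℝ) ^ (2 * (s : ℝ)) =
        (R N : ℝ) ^ (δ + (sk k : ℝ) / (1 - a)) * (R N : ℝ) ^ ((s : ℝ) + δ) := by
      rw [← Real.rpow_add hR0]
      congr 1
      rw [hδ]
      ring
    rw [h8] at h7
    exact le_of_mul_le_mul_left h7 (by positivity)

/-- **The random sets of density `n ^ (-a)`.** -/
theorem random {Ω : Type} [MeasurableSpace Ω] (μ : Measure Ω) [IsProbabilityMeasure μ] (E : ℕ → Set Ω)
    (hE : ∀ n, MeasurableSet (E n)) (hI : iIndepSet E μ) (a c C : ℝ) (ha : 0 < a) (ha1 : a < 1) (hc : 0 < c)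
    (hp : ∀ n : ℕ, 1 ≤ n → c * (n : ℝ) ^ (-a) ≤ μ.real (E n) ∧ μ.real (E n) ≤ C * (n : ℝ) ^ (-a)) :
    ∀ᵐ ω ∂μ, ∀ s k : ℕ, 1 ≤ s → 1 ≤ k →
      ((1 - a) * s < sk k → ∃ δ : ℝ, 0 < δ ∧ ∀ᶠ N : ℕ in atTop,
        ((nond s k (An E N ω)).card : ℝ) ≤ ((An E N ω).card : ℝ) ^ ((s : ℝ) - δ) ∧
        |((sols s k (An E N ω)).card : ℝ) - s.factorial * ((An E N ω).card : ℝ) ^ s| ≤
          ((An E N ω).card : ℝ) ^ ((s : ℝ) - δ)) ∧
      ((sk k : ℝ) < (1 - a) * s → ∃ δ : ℝ, 0 < δ ∧ ∀ᶠ N : ℕ in atTop,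
        ((An E N ω).card : ℝ) ^ ((s : ℝ) + δ) ≤ ((sols s k (An E N ω)).card : ℝ)) := by
  have hC : 0 ≤ C := by
    have h1 := hp 1 le_rfl
    simp only [Nat.cast_one, Real.one_rpow, mul_one] at h1
    linarith [h1.1, h1.2]
  have h1 := low μ E hE hI a c ha ha1 hc (fun n hn => (hp n hn).1)
  have h2 : ∀ᵐ ω ∂μ, ∀ s k : ℕ, 1 ≤ s → 1 ≤ k → (1 - a) * s < sk k →
      ∀ᶠ L : ℕ in atTop, (cnt E (ND s k (2 ^ L)) ω : ℝ) < (2 : ℝ) ^ (L * ((1 - a) * s - sv s k a / 4)) := by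
    rw [ae_all_iff]
    intro s
    rw [ae_all_iff]
    intro k
    by_cases hs : 1 ≤ s
    · by_cases hk : 1 ≤ k
      · by_cases hsk : (1 - a) * s < sk k
        · filter_upwards [up μ E hE hI a C ha ha1 hC (fun n hn => (hp n hn).2) s k hs hk hsk] with ω hω _ _ _
          exact hω
        · exact ae_of_all _ fun ω _ _ h => absurd h hsk
      · exact ae_of_all _ fun ω _ h => absurd h hk
    · exact ae_of_all _ fun ω h => absurd h hs
  filter_upwards [h1, h2] with ω hω1 hω2 s k hs hk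
  have h3 := fixed E ω a (c / 4) ha ha1 (by positivity) hω1 s k hs
  refine ⟨fun hsk => h3.1 ?_, h3.2⟩
  have hsv : 0 < sv s k a := by
    unfold sv
    apply lt_min (lt_min (by linarith) (by linarith)) (by linarith)
  have hsv1 : sv s k a ≤ (1 - a) / 2 := (min_le_left _ _).trans (min_le_left _ _)
  refine ⟨sv s k a / 4, by positivity, ?_, hω2 s k hs hk hsk⟩
  have hs1 : (1 : ℝ) ≤ s := by exact_mod_cast hs
  nlinarith

end Pool.Agent.L5helper4.VR
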