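import Pool.Agent.L5helper4.VR.V7

set_option autoImplicit false

/-!
# A set of `N ^ (1 - o(1))` integers up to `N` with the asymptotic formula
-/

open Finset MeasureTheory ProbabilityTheory Filter

namespace Pool.Agent.L5helper4.VR

open Pool.Agent.helper132_dc (sk)

/-! ### coins -/

/-- a coin with probability `q` -/
noncomputable def coin (q : unitInterval) : Measure Bool :=
  ENNReal.ofReal (q : ℝ) • Measure.dirac true + ENNReal.ofReal (1 - (q : ℝ)) • Measure.dirac false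

instance (q : unitInterval) : IsProbabilityMeasure (coin q) := by
  constructor
  have h1 : (0 : ℝ) ≤ q := q.2.1
  have h2 : (q : ℝ) ≤ 1 := q.2.2
  unfold coin
  simp only [Measure.coe_add, Measure.coe_smul, Pi.add_apply, Pi.smul_apply, smul_eq_mul, measure_univ, mul_one]
  rw [← ENNReal.ofReal_add h1 (by linarith)]
  simp

/-- independent coins -/
noncomputable def coins (p : ℕ → unitInterval) : Measure (ℕ → Bool) := Measure.infinitePi (fun n => coin (p n))

instance (p : ℕ → unitInterval) : IsProbabilityMeasure (coins p) := by unfold coins; infer_instance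

theorem coins_true (p : ℕ → unitInterval) (n : ℕ) :
    coins p {c | c n = true} = ENNReal.ofReal (p n : ℝ) := by
  have h := measurePreserving_eval_infinitePi (fun n => coin (p n)) n
  have h2 := h.measure_preimage (measurableSet_singleton true).nullMeasurableSet
  have h3 : coin (p n) {true} = ENNReal.ofReal (p n : ℝ) := by
    simp [coin]
  rw [h3] at h2
  exact h2

theorem meas_true (n : ℕ) : MeasurableSet {c : ℕ → Bool | c n = true} :=
  (measurable_pi_apply (X := fun _ : ℕ => Bool) n) (measurableSet_singleton true)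

theorem coins_indep (p : ℕ → unitInterval) : iIndepSet (fun n => {c : ℕ → Bool | c n = true}) (coins p) := by
  rw [iIndepSet_iff_meas_biInter meas_true]
  intro s
  have h : (⋂ i ∈ s, {c : ℕ → Bool | c i = true}) = Set.pi s (fun _ => {true}) := by
    ext c; simp [Set.mem_pi]
  have h2 := Measure.infinitePi_pi (μ := fun n => coin (p n)) (s := s)
    (t := fun _ => ({true} : Set Bool)) (fun i _ => measurableSet_singleton _)
  rw [h]
  unfold coins
  rw [h2]
  apply Finset.prod_congr rfl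
  intro n _
  have h3 := coins_true p n
  unfold coins at h3
  rw [h3]
  simp [coin]

/-! ### slowly growing sequences -/

lemma diag_seq (P : ℕ → ℕ → Prop) (h : ∀ i, ∀ᶠ L in atTop, P i L) : ∃ q : ℕ → ℕ, Monotone q ∧
    Tendsto q atTop atTop ∧ (∀ L, q (L + 1) ≤ q L + 1) ∧ ∀ᶠ L in atTop, P (q L) L := by
  classical
  have h' : ∀ i, ∃ T, ∀ L, T ≤ L → P i L := fun i => eventually_atTop.1 (h i)
  choose T0 hT0 using h'
  obtain ⟨T, hT⟩ : ∃ T : ℕ → ℕ, T = fun i => ∑ j ∈ range (i + 1), (T0 j + 1) := ⟨_, rfl⟩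
  have hTs : ∀ i, T (i + 1) = T i + (T0 (i + 1) + 1) := by
    intro i
    rw [hT]
    dsimp only
    rw [Finset.sum_range_succ]
  have hTge : ∀ i, T0 i ≤ T i ∧ i ≤ T i := by
    intro i
    induction i with
    | zero =>
      rw [hT]
      simp
    | succ i ih =>
      rw [hTs]
      omega
  obtain ⟨q, hq⟩ : ∃ q : ℕ → ℕ, q = fun L => Nat.findGreatest (fun i => T i ≤ L) L := ⟨_, rfl⟩
  have hge : ∀ i L, T i ≤ L → i ≤ q L := by
    intro i L hi
    rw [hq]
    exact Nat.le_findGreatest ((hTge i).2.trans hi) hi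
  have hle : ∀ L, T 0 ≤ L → T (q L) ≤ L := by
    intro L hL
    have := Nat.findGreatest_spec (P := fun i => T i ≤ L) (Nat.zero_le L) hL
    rw [hq]
    exact this
  refine ⟨q, ?_, ?_, ?_, ?_⟩
  · intro L L' hL
    rw [hq]
    exact Nat.findGreatest_mono (fun i hi => le_trans hi hL) hL
  · rw [tendsto_atTop]
    intro i
    filter_upwards [eventually_ge_atTop (T i)] with L hL
    exact hge i L hL
  · intro L
    rcases Nat.eq_zero_or_pos (q (L + 1)) with h0 | h0
    · omega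
    · have h1 : T (q (L + 1)) ≤ L + 1 := by
        rw [hq] at h0 ⊢
        exact Nat.findGreatest_of_ne_zero (m := Nat.findGreatest (fun i => T i ≤ L + 1) (L + 1)) rfl h0.ne'
      have h2 := hTs (q (L + 1) - 1)
      rw [Nat.sub_add_cancel h0] at h2
      have h3 := hge (q (L + 1) - 1) L (by omega)
      omega
  · filter_upwards [eventually_ge_atTop (T 0)] with L hL
    exact hT0 _ _ ((hTge _).1.trans (hle L hL))

lemma bc' {Ω : Type} [MeasurableSpace Ω] (μ : Measure Ω) [IsProbabilityMeasure μ] (B : ℕ → Set Ω) (f : ℕ → ℝ)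
    (hf : Summable f) (h : ∀ᶠ L : ℕ in atTop, μ (B L) ≤ ENNReal.ofReal (f L)) :
    ∀ᵐ ω ∂μ, ∀ᶠ L : ℕ in atTop, ω ∉ B L := by
  obtain ⟨L0, hL0⟩ := eventually_atTop.1 h
  have hs : Summable (fun L : ℕ => f (L + L0)) := (summable_nat_add_iff L0).2 hf
  have h2 : ∑' L : ℕ, μ (B (L + L0)) ≠ ⊤ := by
    refine ne_of_lt (lt_of_le_of_lt (ENNReal.tsum_le_tsum fun L => hL0 (L + L0) (by omega)) ?_)
    exact hs.tsum_ofReal_lt_top
  filter_upwards [ae_eventually_notMem h2] with ω hω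
  rw [eventually_atTop] at hω ⊢
  obtain ⟨L1, hL1⟩ := hω
  refine ⟨L0 + L1, fun L hL => ?_⟩
  have := hL1 (L - L0) (by omega)
  rwa [Nat.sub_add_cancel (by omega)] at this

/-- the saving for `a = 1 / q` -/
lemma sv_eq (s k q : ℕ) (hs : 1 ≤ s) (hq : 2 ≤ q) (hsk : 2 * s ≤ k * (k + 1)) :
    sv s k (1 / q) = 1 / q / 2 ∧ (1 - 1 / (q : ℝ)) * s < sk k := by
  have hq0 : (2 : ℝ) ≤ q := by exact_mod_cast hq
  have h1 : (1 : ℝ) / q ≤ 1 / 2 := one_div_le_one_div_of_le (by norm_num) hq0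
  have h0 : (0 : ℝ) < 1 / q := by positivity
  have h2 : (s : ℝ) ≤ sk k := by
    have h3 := Pool.Agent.helper132_dc.two_sk k
    have : s ≤ sk k := by omega
    exact_mod_cast this
  have hs1 : (1 : ℝ) ≤ s := by exact_mod_cast hs
  refine ⟨?_, by nlinarith⟩
  unfold sv
  rw [min_eq_right (a := (1 - 1 / (q : ℝ)) / 2) (by linarith)]
  apply min_eq_left
  nlinarith

/-- decay -/
lemma decay (C : ℝ) (i : ℕ) (hi : 1 ≤ i) :
    ∀ᶠ L : ℕ in atTop, C * (2 : ℝ) ^ (-(L * (1 / (i : ℝ) / 8))) ≤ 1 / ((L : ℝ) + 1) ^ 2 := by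
  obtain ⟨C2, hC2, h2⟩ := poly_le 3 (1 / (i : ℝ) / 8) (by positivity)
  filter_upwards [eventually_ge_atTop ⌈|C| * C2⌉₊] with L hL
  have hL' : |C| * C2 ≤ (L : ℝ) + 1 := by
    have := Nat.le_ceil (|C| * C2)
    have h3 : ((⌈|C| * C2⌉₊ : ℕ) : ℝ) ≤ L := by exact_mod_cast hL
    linarith
  have h4 := h2 L
  have hL0 : (0 : ℝ) < (L : ℝ) + 1 := by positivity
  rw [le_div_iff₀ (by positivity), Real.rpow_neg (by norm_num)]
  obtain ⟨y, hy⟩ : ∃ y : ℝ, y = (2 : ℝ) ^ (L * (1 / (i : ℝ) / 8)) := ⟨_, rfl⟩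
  rw [← hy] at h4 ⊢
  have hy0 : 0 < y := by rw [hy]; positivity
  rw [mul_assoc, mul_comm y⁻¹, ← mul_assoc, ← div_eq_mul_inv, div_le_one hy0]
  have h5 : C * ((L : ℝ) + 1) ^ 2 * ((L : ℝ) + 1) ≤ y * ((L : ℝ) + 1) := by
    calc C * ((L : ℝ) + 1) ^ 2 * ((L : ℝ) + 1) = C * ((L : ℝ) + 1) ^ 3 := by ring
      _ ≤ |C| * ((L : ℝ) + 1) ^ 3 := mul_le_mul_of_nonneg_right (le_abs_self C) (by positivity)
      _ ≤ |C| * (C2 * y) := mul_le_mul_of_nonneg_left h4 (abs_nonneg C)
      _ = y * (|C| * C2) := by ring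
      _ ≤ y * ((L : ℝ) + 1) := mul_le_mul_of_nonneg_left hL' hy0.le
  exact le_of_mul_le_mul_right h5 hL0

end Pool.Agent.L5helper4.VR
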