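import Pool.Agent.L5helper4.VR.V8

set_option autoImplicit false

/-!
# A set of `N ^ (1 - o(1))` integers up to `N` with the asymptotic formula
-/

open Finset MeasureTheory ProbabilityTheory Filter Topology

namespace Pool.Agent.L5helper4.VR

open Pool.Agent.helper132_dc (sk)

/-- the almost sure statement for slowly varying densities -/
theorem slow : ∃ (Q : ℕ → ℕ) (E : ℕ → Set (ℕ → Bool)) (ω : ℕ → Bool), (∀ L, 2 ≤ Q L) ∧ Tendsto Q atTop atTop ∧
    (∀ L, Q (L + 1) ≤ Q L + 1) ∧ (∀ᶠ L : ℕ in atTop, Q L ^ 2 ≤ L) ∧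
    (∀ᶠ L : ℕ in atTop, 1 / 4 * (2 : ℝ) ^ (L * (1 - 1 / (Q L : ℝ))) ≤
      ((open Classical in (range (2 ^ L)).filter (fun n => 1 ≤ n ∧ ω ∈ E n)).card : ℝ)) ∧
    ∀ s k : ℕ, 1 ≤ s → 1 ≤ k → 2 * s ≤ k * (k + 1) → ∀ᶠ L : ℕ in atTop,
      (cnt E (ND s k (2 ^ L)) ω : ℝ) < (2 : ℝ) ^ (L * ((1 - 1 / (Q L : ℝ)) * s - 1 / (Q L : ℝ) / 8)) := by
  classical
  have hC : ∀ i s k : ℕ, ∃ C : ℝ, 1 ≤ C ∧ (2 ≤ i → 1 ≤ s → 1 ≤ k → 2 * s ≤ k * (k + 1) →
      ∀ {Ω : Type} [MeasurableSpace Ω] (μ : Measure Ω) [IsProbabilityMeasure μ] (E : ℕ → Set Ω),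
      (∀ n, MeasurableSet (E n)) → iIndepSet E μ → ∀ L : ℕ,
      (∀ n : ℕ, 1 ≤ n → n < 2 ^ L → μ.real (E n) ≤ 1 * (n : ℝ) ^ (-(1 / (i : ℝ)))) →
      μ {ω | (2 : ℝ) ^ (L * ((1 - 1 / (i : ℝ)) * s - 1 / (i : ℝ) / 8)) ≤ (cnt E (ND s k (2 ^ L)) ω : ℝ)} ≤
        ENNReal.ofReal (C * (2 : ℝ) ^ (-(L * (1 / (i : ℝ) / 8))))) := by
    intro i s k
    by_cases h : 2 ≤ i ∧ 1 ≤ s ∧ 1 ≤ k ∧ 2 * s ≤ k * (k + 1)
    · obtain ⟨hi, hs, hk, hsk⟩ := h
      have hi0 : (2 : ℝ) ≤ i := by exact_mod_cast hi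
      obtain ⟨h1, h2⟩ := sv_eq s k i hs hi hsk
      obtain ⟨C, hC, h3⟩ := nd_prob s k hs hk (1 / i) (by positivity)
        (by rw [div_lt_one (by positivity)]; linarith) h2 1 zero_le_one
      refine ⟨C, hC, fun _ _ _ _ {Ω} _ μ _ E hE hI L hp => ?_⟩
      have h4 := h3 μ E hE hI L hp
      rw [h1] at h4
      have e1 : 1 / (i : ℝ) / 2 / 4 = 1 / (i : ℝ) / 8 := by ring
      rw [e1] at h4
      exact h4
    · exact ⟨1, le_rfl, fun a b c d => absurd ⟨a, b, c, d⟩ h⟩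
  choose C hC1 hC using hC
  obtain ⟨q, hqm, hqt, hqs, hqP⟩ := diag_seq (fun i L => (i + 2) ^ 2 ≤ L ∧ ∀ s ∈ range (i + 3), ∀ k ∈ range (i + 3),
    C (i + 2) s k * (2 : ℝ) ^ (-(L * (1 / ((i + 2 : ℕ) : ℝ) / 8))) ≤ 1 / ((L : ℝ) + 1) ^ 2) (by
      intro i
      refine (eventually_ge_atTop _).and ?_
      rw [eventually_all_finset]
      intro s _
      rw [eventually_all_finset]
      intro k _
      exact decay (C (i + 2) s k) (i + 2) (by omega))
  obtain ⟨Q, hQ⟩ : ∃ Q : ℕ → ℕ, Q = fun L => q L + 2 := ⟨_, rfl⟩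
  have hQ2 : ∀ L, 2 ≤ Q L := fun L => by rw [hQ]; dsimp only; omega
  have hQm : Monotone Q := fun L L' h => by
    rw [hQ]
    have := hqm h
    dsimp only
    omega
  have hQt : Tendsto Q atTop atTop := by
    rw [hQ]
    exact tendsto_atTop_mono (fun L => by omega) hqt
  have hQr : ∀ L, (2 : ℝ) ≤ Q L := fun L => by exact_mod_cast hQ2 L
  -- the probabilities
  obtain ⟨pr, hpr⟩ : ∃ pr : ℕ → ℝ, pr = fun n : ℕ => (n : ℝ) ^ (-(1 / (Q (Nat.log 2 n + 1) : ℝ))) := ⟨_, rfl⟩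
  have hpr0 : ∀ n, 0 ≤ pr n := fun n => by rw [hpr]; positivity
  have hpr1 : ∀ n, pr n ≤ 1 := fun n => by
    rw [hpr]
    dsimp only
    have h1 := hQr (Nat.log 2 n + 1)
    rcases Nat.eq_zero_or_pos n with rfl | hn
    · rw [Nat.cast_zero, Real.zero_rpow]
      · exact zero_le_one
      · have : 0 < 1 / (Q (Nat.log 2 0 + 1) : ℝ) := by positivity
        linarith
    · apply Real.rpow_le_one_of_one_le_of_nonpos (by exact_mod_cast hn)
      have : 0 < 1 / (Q (Nat.log 2 n + 1) : ℝ) := by positivity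
      linarith
  obtain ⟨p, hp⟩ : ∃ p : ℕ → unitInterval, p = fun n => ⟨pr n, hpr0 n, hpr1 n⟩ := ⟨_, rfl⟩
  obtain ⟨E, hEd⟩ : ∃ E : ℕ → Set (ℕ → Bool), E = fun n => {c | c n = true} := ⟨_, rfl⟩
  have hE : ∀ n, MeasurableSet (E n) := fun n => by rw [hEd]; exact meas_true n
  have hI : iIndepSet E (coins p) := by rw [hEd]; exact coins_indep p
  have hreal : ∀ n, (coins p).real (E n) = pr n := fun n => by
    rw [measureReal_def, hEd]
    dsimp only
    rw [coins_true, hp]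
    exact ENNReal.toReal_ofReal (hpr0 n)
  have hup : ∀ L n : ℕ, 1 ≤ n → n < 2 ^ L → (coins p).real (E n) ≤ 1 * (n : ℝ) ^ (-(1 / (Q L : ℝ))) := by
    intro L n hn hnL
    rw [hreal, one_mul, hpr]
    dsimp only
    apply Real.rpow_le_rpow_of_exponent_le (by exact_mod_cast hn)
    have h1 : Nat.log 2 n + 1 ≤ L := Nat.log_lt_of_lt_pow (by omega) hnL
    have h2 : (Q (Nat.log 2 n + 1) : ℝ) ≤ Q L := by exact_mod_cast hQm h1
    have h3 : 1 / (Q L : ℝ) ≤ 1 / (Q (Nat.log 2 n + 1) : ℝ) :=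
      one_div_le_one_div_of_le (by linarith [hQr (Nat.log 2 n + 1)]) h2
    linarith
  have hlow : ∀ L : ℕ, 1 ≤ L → 1 / 2 * (2 : ℝ) ^ (L * (1 - 1 / (Q L : ℝ))) ≤
      ∑ n ∈ (range (2 ^ L)).filter (fun n => 1 ≤ n), (coins p).real (E n) := by
    intro L hL
    have h2 : 2 ^ L = 2 ^ (L - 1) + 2 ^ (L - 1) := by
      rw [← two_mul, ← pow_succ', Nat.sub_add_cancel hL]
    have hpos : 1 ≤ 2 ^ (L - 1) := Nat.one_le_two_pow
    calc 1 / 2 * (2 : ℝ) ^ (L * (1 - 1 / (Q L : ℝ))) = ((2 ^ (L - 1) : ℕ) : ℝ) * (2 : ℝ) ^ (-(L * (1 / (Q L : ℝ)))) := by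
          have e1 : ((2 ^ (L - 1) : ℕ) : ℝ) = 1 / 2 * (2 : ℝ) ^ (L : ℝ) := by
            have e2 : ((2 ^ L : ℕ) : ℝ) = ((2 ^ (L - 1) + 2 ^ (L - 1) : ℕ) : ℝ) := by rw [← h2]
            rw [Nat.cast_add] at e2
            have e3 : (2 : ℝ) ^ (L : ℝ) = ((2 ^ L : ℕ) : ℝ) := by
              rw [Real.rpow_natCast]
              push_cast
              rfl
            rw [e3]
            linarith
          rw [e1, mul_assoc, ← Real.rpow_add (by norm_num)]
          congr 2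
          ring
      _ = ∑ n ∈ Ico (2 ^ (L - 1)) (2 ^ L), (2 : ℝ) ^ (-(L * (1 / (Q L : ℝ)))) := by
          rw [Finset.sum_const, Nat.card_Ico, nsmul_eq_mul]
          congr 2
          omega
      _ ≤ ∑ n ∈ Ico (2 ^ (L - 1)) (2 ^ L), (coins p).real (E n) := by
          apply Finset.sum_le_sum
          intro n hn
          rw [mem_Ico] at hn
          have hlog : Nat.log 2 n + 1 = L := by
            have := Nat.log_eq_of_pow_le_of_lt_pow (b := 2) (m := L - 1) (n := n) hn.1 (by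
              rw [Nat.sub_add_cancel hL]
              exact hn.2)
            omega
          rw [hreal, hpr]
          dsimp only
          rw [hlog]
          have hn0 : (0 : ℝ) < n := by
            have : 0 < n := by omega
            exact_mod_cast this
          have hn1 : (n : ℝ) ≤ (2 : ℝ) ^ (L : ℝ) := by
            rw [Real.rpow_natCast]
            exact_mod_cast hn.2.le
          calc (2 : ℝ) ^ (-(L * (1 / (Q L : ℝ)))) = ((2 : ℝ) ^ (L : ℝ)) ^ (-(1 / (Q L : ℝ))) := by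
                rw [← Real.rpow_mul (by norm_num)]
                congr 1
                ring
            _ ≤ (n : ℝ) ^ (-(1 / (Q L : ℝ))) := by
                apply Real.rpow_le_rpow_of_nonpos hn0 hn1
                have : 0 < 1 / (Q L : ℝ) := by
                  have := hQr L
                  positivity
                linarith
      _ ≤ _ := by
          apply Finset.sum_le_sum_of_subset_of_nonneg
          · intro n hn
            rw [mem_Ico] at hn
            rw [mem_filter, mem_range]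
            exact ⟨hn.2, by omega⟩
          · intro n _ _
            exact measureReal_nonneg
  have h1 := low_gen (coins p) E hE hI (fun L => 1 / 2 * (2 : ℝ) ^ (L * (1 - 1 / (Q L : ℝ)))) 2 (1 / 2) (by norm_num) (by
    intro L hL
    refine ⟨by positivity, ?_, hlow L hL⟩
    have h2 : (2 : ℝ) ^ ((L : ℝ) * (1 / 2)) ≤ (2 : ℝ) ^ (L * (1 - 1 / (Q L : ℝ))) := by
      apply Real.rpow_le_rpow_of_exponent_le (by norm_num)
      apply mul_le_mul_of_nonneg_left _ (by positivity)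
      have : 1 / (Q L : ℝ) ≤ 1 / 2 := one_div_le_one_div_of_le (by norm_num) (hQr L)
      linarith
    rw [Real.rpow_neg (by norm_num)]
    calc 1 / (1 / 2 * (2 : ℝ) ^ (L * (1 - 1 / (Q L : ℝ)))) = 2 * (1 / (2 : ℝ) ^ (L * (1 - 1 / (Q L : ℝ)))) := by
          field_simp
      _ ≤ 2 * (1 / (2 : ℝ) ^ ((L : ℝ) * (1 / 2))) := by
          apply mul_le_mul_of_nonneg_left _ (by norm_num)
          exact one_div_le_one_div_of_le (by positivity) h2
      _ = _ := by rw [one_div])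
  have h2 : ∀ᵐ ω ∂(coins p), ∀ s k : ℕ, 1 ≤ s → 1 ≤ k → 2 * s ≤ k * (k + 1) →
      ∀ᶠ L : ℕ in atTop,
      (cnt E (ND s k (2 ^ L)) ω : ℝ) < (2 : ℝ) ^ (L * ((1 - 1 / (Q L : ℝ)) * s - 1 / (Q L : ℝ) / 8)) := by
    rw [ae_all_iff]
    intro s
    rw [ae_all_iff]
    intro k
    by_cases h : 1 ≤ s ∧ 1 ≤ k ∧ 2 * s ≤ k * (k + 1)
    · obtain ⟨hs, hk, hsk⟩ := h
      have h3 := bc' (coins p) (fun L => {ω | (2 : ℝ) ^ (L * ((1 - 1 / (Q L : ℝ)) * s - 1 / (Q L : ℝ) / 8)) ≤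
        (cnt E (ND s k (2 ^ L)) ω : ℝ)}) (fun L : ℕ => 1 / ((L : ℝ) + 1) ^ 2) (by
          have := (summable_nat_add_iff 1).2 (Real.summable_one_div_nat_pow.2 (by norm_num : 1 < 2))
          refine this.congr fun L => ?_
          push_cast
          rfl) (by
        filter_upwards [hqP, hqt.eventually_ge_atTop (max s k)] with L hL hLq
        refine (hC (Q L) s k (hQ2 L) hs hk hsk (coins p) E hE hI L (hup L)).trans ?_
        apply ENNReal.ofReal_le_ofReal
        have h5 := hL.2 s (by rw [mem_range]; have := le_max_left s k; omega) k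
          (by rw [mem_range]; have := le_max_right s k; omega)
        rw [hQ]
        exact h5)
      filter_upwards [h3] with ω hω _ _ _
      filter_upwards [hω] with L hL
      exact not_le.1 hL
    · exact ae_of_all _ fun ω a b c => absurd ⟨a, b, c⟩ h
  obtain ⟨ω, hω1, hω2⟩ := (h1.and h2).exists
  refine ⟨Q, E, ω, hQ2, hQt, ?_, ?_, ?_, hω2⟩
  · intro L
    rw [hQ]
    have := hqs L
    dsimp only
    omega
  · filter_upwards [hqP] with L hL
    rw [hQ]
    exact hL.1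
  · filter_upwards [hω1] with L hL
    refine le_trans (le_of_eq ?_) hL
    ring

open Classical in
/-- **A dense set with the asymptotic formula in the whole range `s ≤ k (k + 1) / 2`.** -/
theorem dense_set : ∃ A : Set ℕ,
    (∀ ε : ℝ, 0 < ε → ∀ᶠ N : ℕ in atTop, (N : ℝ) ^ (1 - ε) ≤ (((Icc 1 N).filter (fun n => n ∈ A)).card : ℝ)) ∧
    (∀ s k : ℕ, 1 ≤ s → 1 ≤ k → 2 * s ≤ k * (k + 1) →
      Tendsto (fun N => ((sols s k ((Icc 1 N).filter (fun n => n ∈ A))).card : ℝ) /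
        (((Icc 1 N).filter (fun n => n ∈ A)).card : ℝ) ^ s) atTop (𝓝 (s.factorial : ℝ))) ∧
    ∀ s k : ℕ, 1 ≤ k → k * (k + 1) < 2 * s →
      Tendsto (fun N => ((sols s k ((Icc 1 N).filter (fun n => n ∈ A))).card : ℝ) /
        (((Icc 1 N).filter (fun n => n ∈ A)).card : ℝ) ^ s) atTop atTop := by
  obtain ⟨Q, E, ω, hQ2, hQt, hQs, hQL, hlow, hup⟩ := slow
  have hQr : ∀ L, (2 : ℝ) ≤ Q L := fun L => by exact_mod_cast hQ2 L
  refine ⟨{n | ω ∈ E n}, ?_⟩
  have hAn : ∀ N, (Icc 1 N).filter (fun n => n ∈ {n | ω ∈ E n}) = An E N ω := fun N => rfl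
  simp only [hAn]
  obtain ⟨R, hR⟩ : ∃ R : ℕ → ℕ, R = fun N => (An E N ω).card := ⟨_, rfl⟩
  have hlogt : Tendsto (fun N => Nat.log 2 N) atTop atTop := by
    rw [tendsto_atTop]
    intro b
    filter_upwards [eventually_ge_atTop (2 ^ b)] with N hN
    exact Nat.le_log_of_pow_le (by norm_num) hN
  have hRlow : ∀ᶠ N : ℕ in atTop, 1 / 4 * (2 : ℝ) ^ (Nat.log 2 N * (1 - 1 / (Q (Nat.log 2 N) : ℝ))) ≤ R N := by
    filter_upwards [hlogt.eventually hlow, eventually_ge_atTop 1] with N hN hN1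
    refine hN.trans ?_
    rw [hR]
    exact_mod_cast low_An E N (Nat.log 2 N) (Nat.pow_log_le_self 2 (by omega)) ω
  have hdens : ∀ ε : ℝ, 0 < ε → ∀ᶠ N : ℕ in atTop, (N : ℝ) ^ (1 - ε) ≤ (R N : ℝ) := by
    intro ε hε
    obtain ⟨e, he⟩ : ∃ e : ℝ, e = min ε (1 / 2) := ⟨_, rfl⟩
    have he0 : 0 < e := by rw [he]; exact lt_min hε (by norm_num)
    have he1 : e ≤ 1 / 2 := by rw [he]; exact min_le_right _ _
    have heε : e ≤ ε := by rw [he]; exact min_le_left _ _
    have hQt' : Tendsto (fun N => (Q (Nat.log 2 N) : ℝ)) atTop atTop :=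
      tendsto_natCast_atTop_atTop.comp (hQt.comp hlogt)
    have hlogt' : Tendsto (fun N => ((Nat.log 2 N : ℕ) : ℝ)) atTop atTop := tendsto_natCast_atTop_atTop.comp hlogt
    filter_upwards [hRlow, hQt'.eventually_ge_atTop (2 / e), hlogt'.eventually_ge_atTop (6 / e),
      eventually_ge_atTop 1] with N h1 h2 h3 h4
    refine le_trans ?_ h1
    obtain ⟨L, hL⟩ : ∃ L, L = Nat.log 2 N := ⟨_, rfl⟩
    rw [← hL] at h2 h3 ⊢
    have hN1 : (1 : ℝ) ≤ N := by exact_mod_cast h4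
    have hNL : (N : ℝ) ≤ (2 : ℝ) ^ ((L : ℝ) + 1) := by
      rw [Real.rpow_add (by norm_num), Real.rpow_natCast, Real.rpow_one, ← pow_succ, hL]
      exact_mod_cast (Nat.lt_pow_succ_log_self (by norm_num) N).le
    have h5 : 1 / (Q L : ℝ) ≤ e / 2 := by
      rw [div_le_iff₀ (by linarith [hQr L])]
      have : e / 2 * (2 / e) ≤ e / 2 * Q L := mul_le_mul_of_nonneg_left h2 (by positivity)
      have e1 : e / 2 * (2 / e) = 1 := by field_simp
      linarith
    have h6 : 6 ≤ L * e := by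
      rw [div_le_iff₀ he0] at h3
      exact h3
    calc (N : ℝ) ^ (1 - ε) ≤ (N : ℝ) ^ (1 - e) := Real.rpow_le_rpow_of_exponent_le hN1 (by linarith)
      _ ≤ ((2 : ℝ) ^ ((L : ℝ) + 1)) ^ (1 - e) := Real.rpow_le_rpow (by positivity) hNL (by linarith)
      _ = (2 : ℝ) ^ (((L : ℝ) + 1) * (1 - e)) := by rw [← Real.rpow_mul (by norm_num)]
      _ ≤ (2 : ℝ) ^ (-2 + L * (1 - 1 / (Q L : ℝ))) := by
          apply Real.rpow_le_rpow_of_exponent_le (by norm_num)
          have h7 : (L : ℝ) * (1 / (Q L : ℝ)) ≤ L * (e / 2) := mul_le_mul_of_nonneg_left h5 (by positivity)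
          nlinarith
      _ = 1 / 4 * (2 : ℝ) ^ (L * (1 - 1 / (Q L : ℝ))) := by
          rw [Real.rpow_add (by norm_num)]
          congr 1
          norm_num
  have hRt : Tendsto (fun N => (R N : ℝ)) atTop atTop := by
    apply tendsto_atTop_mono' _ (hdens (1 / 2) (by norm_num))
    exact (tendsto_rpow_atTop (by norm_num)).comp tendsto_natCast_atTop_atTop
  refine ⟨fun ε hε => ?_, fun s k hs hk hsk => ?_, fun s k hk hsk => ?_⟩
  · filter_upwards [hdens ε hε] with N hN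
    rw [hR] at hN
    exact hN
  rotate_left
  · -- the supercritical range
    have h2sk := Pool.Agent.helper132_dc.two_sk k
    have hlt : sk k + 1 ≤ s := by omega
    have hltr : (sk k : ℝ) + 1 ≤ s := by exact_mod_cast hlt
    have hs0 : (0 : ℝ) < s := by
      have : (0 : ℝ) ≤ sk k := by positivity
      linarith
    have h1 : Tendsto (fun N : ℕ => (N : ℝ) ^ (1 / 2 : ℝ) / ((s : ℝ) + 1) ^ k) atTop atTop :=
      ((tendsto_rpow_atTop (by norm_num)).comp tendsto_natCast_atTop_atTop).atTop_div_const (by positivity)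
    apply tendsto_atTop_mono' _ _ h1
    filter_upwards [hdens (1 / (2 * s)) (by positivity), hRt.eventually_ge_atTop 1, eventually_ge_atTop 1]
      with N h2 h3 h4
    have hR0 : (0 : ℝ) < R N := by linarith
    have hN1 : (1 : ℝ) ≤ N := by exact_mod_cast h4
    have hN0 : (0 : ℝ) < N := by linarith
    have hRe : ((An E N ω).card : ℝ) = R N := by rw [hR]
    have hRe' : (An E N ω).card = R N := by rw [hR]
    have hp := pigeon s k N (An E N ω) (by
      unfold An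
      exact filter_subset _ _) h4
    rw [hRe'] at hp
    rw [hRe]
    have h5 : (((R N : ℝ) ^ s) ^ 2) ≤ ((s : ℝ) + 1) ^ k * (N : ℝ) ^ sk k * ((sols s k (An E N ω)).card : ℝ) := by
      exact_mod_cast hp
    obtain ⟨J, hJ⟩ : ∃ J : ℝ, J = ((sols s k (An E N ω)).card : ℝ) := ⟨_, rfl⟩
    rw [← hJ] at h5 ⊢
    have h6 : (N : ℝ) ^ (1 / 2 : ℝ) * (N : ℝ) ^ sk k ≤ (R N : ℝ) ^ s := by
      calc (N : ℝ) ^ (1 / 2 : ℝ) * (N : ℝ) ^ sk k = (N : ℝ) ^ ((1 / 2 : ℝ) + sk k) := by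
            rw [Real.rpow_add hN0, Real.rpow_natCast]
        _ ≤ (N : ℝ) ^ ((1 - 1 / (2 * (s : ℝ))) * s) := by
            apply Real.rpow_le_rpow_of_exponent_le hN1
            have : (1 - 1 / (2 * (s : ℝ))) * s = s - 1 / 2 := by field_simp
            rw [this]
            linarith
        _ = ((N : ℝ) ^ (1 - 1 / (2 * (s : ℝ)))) ^ s := by rw [Real.rpow_mul hN0.le, Real.rpow_natCast]
        _ ≤ (R N : ℝ) ^ s := pow_le_pow_left₀ (by positivity) h2 s
    rw [div_le_div_iff₀ (by positivity) (by positivity)]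
    have h7 : 0 < (N : ℝ) ^ sk k := by positivity
    have h8 : (N : ℝ) ^ (1 / 2 : ℝ) * (R N : ℝ) ^ s * (N : ℝ) ^ sk k ≤ J * ((s : ℝ) + 1) ^ k * (N : ℝ) ^ sk k := by
      calc (N : ℝ) ^ (1 / 2 : ℝ) * (R N : ℝ) ^ s * (N : ℝ) ^ sk k =
            (N : ℝ) ^ (1 / 2 : ℝ) * (N : ℝ) ^ sk k * (R N : ℝ) ^ s := by ring
        _ ≤ (R N : ℝ) ^ s * (R N : ℝ) ^ s := mul_le_mul_of_nonneg_right h6 (by positivity)
        _ = ((R N : ℝ) ^ s) ^ 2 := by ring
        _ ≤ _ := h5
        _ = _ := by ring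
    exact le_of_mul_le_mul_right h8 h7
  -- the upper bound for the non-diagonal solutions
  have hlogt1 : Tendsto (fun N => Nat.log 2 N + 1) atTop atTop := tendsto_atTop_mono (fun N => by omega) hlogt
  have hQt1 : Tendsto (fun N => (Q (Nat.log 2 N + 1) : ℝ)) atTop atTop :=
    tendsto_natCast_atTop_atTop.comp (hQt.comp hlogt1)
  have hnd : ∀ᶠ N : ℕ in atTop, ((nond s k (An E N ω)).card : ℝ) ≤
      8 ^ s * (2 : ℝ) ^ (-((Q (Nat.log 2 N + 1) : ℝ) / 16)) * (R N : ℝ) ^ s := by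
    filter_upwards [hlogt1.eventually (hup s k hs hk hsk), hRlow, hQt1.eventually_ge_atTop (16 * s + 1),
      hlogt1.eventually hQL, eventually_ge_atTop 1] with N h1 h2 h3 h4 h5
    obtain ⟨L, hL⟩ : ∃ L, L = Nat.log 2 N := ⟨_, rfl⟩
    rw [← hL] at h1 h2 h3 h4 ⊢
    have h6 : ((nond s k (An E N ω)).card : ℝ) ≤ (cnt E (ND s k (2 ^ (L + 1))) ω : ℝ) := by
      exact_mod_cast nond_cnt E s k N (L + 1) (by rw [hL]; exact Nat.lt_pow_succ_log_self (by norm_num) N) ω
    refine (h6.trans h1.le).trans ?_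
    have h7 : (1 / 4 * (2 : ℝ) ^ (L * (1 - 1 / (Q L : ℝ)))) ^ s ≤ (R N : ℝ) ^ s := pow_le_pow_left₀ (by positivity) h2 s
    have h8 : 8 ^ s * (2 : ℝ) ^ (-((Q (L + 1) : ℝ) / 16)) * (1 / 4 * (2 : ℝ) ^ (L * (1 - 1 / (Q L : ℝ)))) ^ s ≤
        8 ^ s * (2 : ℝ) ^ (-((Q (L + 1) : ℝ) / 16)) * (R N : ℝ) ^ s :=
      mul_le_mul_of_nonneg_left h7 (by positivity)
    refine le_trans ?_ h8
    have e1 : 8 ^ s * (2 : ℝ) ^ (-((Q (L + 1) : ℝ) / 16)) * (1 / 4 * (2 : ℝ) ^ (L * (1 - 1 / (Q L : ℝ)))) ^ s =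
        (2 : ℝ) ^ ((s : ℝ) + -((Q (L + 1) : ℝ) / 16) + L * (1 - 1 / (Q L : ℝ)) * s) := by
      rw [Real.rpow_add (by norm_num), Real.rpow_add (by norm_num), Real.rpow_natCast, mul_pow,
        ← Real.rpow_natCast ((2 : ℝ) ^ (L * (1 - 1 / (Q L : ℝ)))), ← Real.rpow_mul (by norm_num)]
      have : (8 : ℝ) ^ s * (1 / 4) ^ s = 2 ^ s := by
        rw [← mul_pow]
        norm_num
      rw [← this]
      ring
    rw [e1]
    apply Real.rpow_le_rpow_of_exponent_le (by norm_num)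
    -- the exponents
    obtain ⟨x, hx⟩ : ∃ x : ℝ, x = 1 / (Q L : ℝ) := ⟨_, rfl⟩
    obtain ⟨y, hy⟩ : ∃ y : ℝ, y = (Q (L + 1) : ℝ) := ⟨_, rfl⟩
    obtain ⟨l, hl⟩ : ∃ l : ℝ, l = (L : ℝ) + 1 := ⟨_, rfl⟩
    rw [← hy] at h3
    have hs1 : (1 : ℝ) ≤ s := by exact_mod_cast hs
    have hy0 : 0 < y := by linarith
    have hy1 : 0 < y - 1 := by linarith
    have hxy : x ≤ 1 / (y - 1) := by
      rw [hx]
      apply one_div_le_one_div_of_le hy1
      have : (Q (L + 1) : ℝ) ≤ Q L + 1 := by exact_mod_cast hQs L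
      rw [hy]
      linarith
    have hx0 : 0 ≤ x := by
      rw [hx]
      have := hQr L
      positivity
    have hyl : y ^ 2 ≤ l := by
      rw [hy, hl]
      exact_mod_cast h4
    have hl0 : 0 < l := lt_of_lt_of_le (by positivity) hyl
    have hLl : (L : ℝ) = l - 1 := by rw [hl]; ring
    have hcast : ((L + 1 : ℕ) : ℝ) = l := by rw [hl]; push_cast; ring
    rw [hcast, ← hy, ← hx, hLl]
    -- `l * (x - 1/y) ≤ l / (y (y - 1))`
    have k1 : l * (x - 1 / y) ≤ l / y / (16 * s) := by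
      have k2 : x - 1 / y ≤ 1 / (y * (y - 1)) := by
        have : 1 / (y - 1) - 1 / y = 1 / (y * (y - 1)) := by
          field_simp
          ring
        linarith
      have k3 : 1 / (y * (y - 1)) ≤ 1 / (y * (16 * s)) := by
        apply one_div_le_one_div_of_le (by positivity)
        apply mul_le_mul_of_nonneg_left _ hy0.le
        linarith
      calc l * (x - 1 / y) ≤ l * (1 / (y * (16 * s))) := mul_le_mul_of_nonneg_left (k2.trans k3) hl0.le
        _ = l / y / (16 * s) := by field_simp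
    have k4 : y ≤ l / y := by
      rw [le_div_iff₀ hy0]
      nlinarith
    have k5 : l * (x - 1 / y) * s ≤ l / y / 16 := by
      calc l * (x - 1 / y) * s ≤ l / y / (16 * s) * s := mul_le_mul_of_nonneg_right k1 (by linarith)
        _ = l / y / 16 := by field_simp
    have k6 : (l * (1 / y)) = l / y := by ring
    have k7 : l * (1 / y / 8) = l / y / 8 := by ring
    have k8 : 0 ≤ x * s := by positivity
    have k9 : l * ((1 - 1 / y) * s - 1 / y / 8) = l * s - l * (1 / y) * s - l / y / 8 := by ring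
    have k10 : (s : ℝ) + -(y / 16) + (l - 1) * (1 - x) * s = l * s - l * x * s + x * s - y / 16 := by ring
    rw [k9, k10]
    have k11 : l * (x - 1 / y) * s = l * x * s - l * (1 / y) * s := by ring
    rw [k11] at k5
    linarith
  -- squeeze
  have hRs : (fun N => ((sols s k (An E N ω)).card : ℝ) / ((An E N ω).card : ℝ) ^ s) =
      fun N => ((sols s k (An E N ω)).card : ℝ) / (R N : ℝ) ^ s := by
    rw [hR]
  rw [hRs]
  have hg : Tendsto (fun N => (s.factorial : ℝ) - s.factorial * (s : ℝ) ^ 2 / R N) atTop (𝓝 (s.factorial : ℝ)) := by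
    have := (tendsto_const_nhds (x := (s.factorial : ℝ)) (f := atTop (α := ℕ))).sub (hRt.const_div_atTop (s.factorial * (s : ℝ) ^ 2))
    simpa using this
  have hh : Tendsto (fun N => (s.factorial : ℝ) + 8 ^ s * (2 : ℝ) ^ (-((Q (Nat.log 2 N + 1) : ℝ) / 16))) atTop
      (𝓝 (s.factorial : ℝ)) := by
    have h1 : Tendsto (fun N => (2 : ℝ) ^ (-((Q (Nat.log 2 N + 1) : ℝ) / 16))) atTop (𝓝 0) := by
      have h2 : Tendsto (fun x : ℝ => (2 : ℝ) ^ (-x)) atTop (𝓝 0) := by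
        have := tendsto_rpow_atTop_of_base_lt_one (1 / 2 : ℝ) (by norm_num) (by norm_num)
        refine this.congr fun x => ?_
        rw [Real.rpow_neg (by norm_num), one_div, Real.inv_rpow (by norm_num)]
      exact h2.comp (hQt1.atTop_div_const (by norm_num))
    have := (tendsto_const_nhds (x := (s.factorial : ℝ)) (f := atTop (α := ℕ))).add (h1.const_mul (8 ^ s))
    simpa using this
  apply tendsto_of_tendsto_of_tendsto_of_le_of_le' hg hh
  · filter_upwards [hRt.eventually_ge_atTop 1, hRt.eventually_ge_atTop s] with N h1 h2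
    have hR0 : (0 : ℝ) < R N := by linarith
    have hlo2 := sols_lower s k (An E N ω)
    have hRe' : (An E N ω).card = R N := by rw [hR]
    rw [hRe'] at hlo2
    have hdl := desc_low s (R N) (by exact_mod_cast h2) (by exact_mod_cast h1) hs
    have e1 : (s.factorial : ℝ) * (R N).descFactorial s ≤ ((sols s k (An E N ω)).card : ℝ) := by exact_mod_cast hlo2
    have hf : (0 : ℝ) ≤ s.factorial := by positivity
    have e2 := mul_le_mul_of_nonneg_left hdl hf
    rw [le_div_iff₀ (by positivity)]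
    refine le_trans (le_of_eq ?_) (e2.trans e1)
    have h7 : (R N : ℝ) ^ s = (R N : ℝ) ^ (s - 1) * R N := by
      rw [← pow_succ]
      congr 1
      omega
    rw [h7]
    field_simp
  · filter_upwards [hnd, hRt.eventually_ge_atTop 1] with N h1 h2
    have hR0 : (0 : ℝ) < R N := by linarith
    have hup2 := sols_upper s k (An E N ω)
    have hRe' : (An E N ω).card = R N := by rw [hR]
    rw [hRe'] at hup2
    have e1 : ((sols s k (An E N ω)).card : ℝ) ≤ s.factorial * (R N : ℝ) ^ s + ((nond s k (An E N ω)).card : ℝ) := by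
      exact_mod_cast hup2
    rw [div_le_iff₀ (by positivity)]
    linarith

end Pool.Agent.L5helper4.VR
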